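import Pool.Agent.Helper18.SV.Goals

open Finset
open scoped Pointwise

namespace Pool.Agent.Helper18.SV

open Pool.Agent.Helper95.SF

universe u

theorem mem_nsum_prog {G : Type u} [AddCommGroup G] [DecidableEq G] (x y : G) (c : ℕ) (hc : 1 ≤ c)
    (h : ℕ) (z : G) :
    z ∈ nsum (prog x y c) h ↔ ∃ i : ℕ, i ≤ h * (c - 1) ∧ z = h • x + i • y := by
  induction h generalizing z with
  | zero =>
    rw [nsum_zero, Finset.mem_singleton]
    constructor
    · rintro rfl
      exact ⟨0, by omega, by simp⟩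
    · rintro ⟨i, hi, rfl⟩
      have : i = 0 := by simpa using hi
      simp [this]
  | succ h ih =>
    rw [nsum_succ, Finset.mem_add]
    constructor
    · rintro ⟨u, hu, v, hv, rfl⟩
      obtain ⟨i, hi, rfl⟩ := (ih u).1 hu
      obtain ⟨j, hj, rfl⟩ := Finset.mem_image.1 hv
      rw [Finset.mem_range] at hj
      refine ⟨i + j, ?_, ?_⟩
      · rw [Nat.add_mul, Nat.one_mul]; omega
      · rw [add_nsmul, add_nsmul, one_nsmul]; abel
    · rintro ⟨i, hi, rfl⟩
      have hi' : i ≤ h * (c - 1) + (c - 1) := by rw [Nat.add_mul, Nat.one_mul] at hi; exact hi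
      set j := min i (c - 1) with hj
      refine ⟨h • x + (i - j) • y, (ih _).2 ⟨i - j, by omega, rfl⟩, x + j • y,
        Finset.mem_image.2 ⟨j, Finset.mem_range.2 (by omega), rfl⟩, ?_⟩
      have h1 : i = (i - j) + j := by omega
      conv_rhs => rw [h1]
      rw [add_nsmul, add_nsmul (m := i - j), one_nsmul]
      abel

theorem t_CRIT : G_CRIT.{u} := by
  intro G _ _ s c x y hc
  constructor
  · intro h e he1 hes i hi1 hi2 heq
    -- write `i = i'' - i'`, `0 ≤ i'' ≤ (s-e)(c-1)`, `0 ≤ i' ≤ s (c-1)`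
    have hcc : ((c - 1 : ℕ) : ℤ) = (c : ℤ) - 1 := by push_cast [hc]; ring
    have hse : ((s - e : ℕ) : ℤ) = (s : ℤ) - e := by push_cast [hes]; ring
    obtain ⟨p, q, hp, hq, hpq⟩ : ∃ p q : ℕ, p ≤ (s - e) * (c - 1) ∧ q ≤ s * (c - 1) ∧
        i = (p : ℤ) - q := by
      rcases le_or_gt 0 i with h0 | h0
      · refine ⟨i.toNat, 0, ?_, by omega, by omega⟩
        have : ((i.toNat : ℕ) : ℤ) ≤ (((s - e) * (c - 1) : ℕ) : ℤ) := by
          rw [Int.toNat_of_nonneg h0, Nat.cast_mul, hse, hcc]; exact hi2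
        exact_mod_cast this
      · refine ⟨0, (-i).toNat, by omega, ?_, by omega⟩
        have : (((-i).toNat : ℕ) : ℤ) ≤ ((s * (c - 1) : ℕ) : ℤ) := by
          rw [Int.toNat_of_nonneg (by omega), Nat.cast_mul, hcc]; omega
        exact_mod_cast this
    have hd := h s (s - e) le_rfl (by omega) (by omega)
    rw [Finset.disjoint_left] at hd
    apply hd ((mem_nsum_prog x y c hc s _).2 ⟨q, hq, rfl⟩)
    refine (mem_nsum_prog x y c hc (s - e) _).2 ⟨p, hp, ?_⟩
    have h1 : s • x = (s - e) • x + e • x := by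
      rw [← add_nsmul]; congr 1; omega
    rw [h1, heq, hpq, sub_zsmul, natCast_zsmul, natCast_zsmul]
    abel
  · intro h
    -- the main case
    have key : ∀ q e : ℕ, 1 ≤ e → q + e ≤ s → Disjoint (nsum (prog x y c) (q + e))
        (nsum (prog x y c) q) := by
      intro q e he hqe
      rw [Finset.disjoint_left]
      intro z hz hz'
      obtain ⟨i, hi, rfl⟩ := (mem_nsum_prog x y c hc _ _).1 hz
      obtain ⟨j, hj, hij⟩ := (mem_nsum_prog x y c hc _ _).1 hz'
      have hcc : ((c - 1 : ℕ) : ℤ) = (c : ℤ) - 1 := by push_cast [hc]; ring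
      have hc0 : (0 : ℤ) ≤ (c : ℤ) - 1 := by omega
      refine h e he (by omega) ((j : ℤ) - i) ?_ ?_ ?_
      · have h1 : (i : ℤ) ≤ (((q + e) * (c - 1) : ℕ) : ℤ) := by exact_mod_cast hi
        rw [Nat.cast_mul, hcc] at h1
        have h2 : ((q + e : ℕ) : ℤ) * ((c : ℤ) - 1) ≤ (s : ℤ) * ((c : ℤ) - 1) :=
          mul_le_mul_of_nonneg_right (by exact_mod_cast hqe) hc0
        have h3 : (0 : ℤ) ≤ j := by positivity
        linarith
      · have h1 : (j : ℤ) ≤ ((q * (c - 1) : ℕ) : ℤ) := by exact_mod_cast hj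
        rw [Nat.cast_mul, hcc] at h1
        have h2 : (q : ℤ) * ((c : ℤ) - 1) ≤ ((s : ℤ) - e) * ((c : ℤ) - 1) :=
          mul_le_mul_of_nonneg_right (by omega) hc0
        have h3 : (0 : ℤ) ≤ i := by positivity
        linarith
      · rw [sub_zsmul, natCast_zsmul, natCast_zsmul]
        rw [add_nsmul] at hij
        have h1 : q • x + (e • x + i • y) = q • x + j • y := by rw [← hij]; abel
        have h2 := add_left_cancel h1
        rw [← h2]; abel
    intro p q hp hq hne
    rcases Nat.lt_or_gt_of_ne hne with hlt | hlt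
    · have := key p (q - p) (by omega) (by omega)
      rw [show p + (q - p) = q by omega] at this
      exact this.symm
    · have := key q (p - q) (by omega) (by omega)
      rwa [show q + (p - q) = p by omega] at this

end Pool.Agent.Helper18.SV
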