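import Pool.Agent.Helper18.SV.Goals

open Finset
open scoped Pointwise

namespace Pool.Agent.Helper18.SV

open Pool.Agent.Helper95.SF

universe u

/-- distinctness of the terms of an interval -/
theorem prog_card_zmod (d c : ℕ) (u : ℕ) (hcd : c ≤ d) :
    (prog (u : ZMod d) 1 c).card = c := by
  unfold prog
  rw [Finset.card_image_of_injOn, Finset.card_range]
  intro i hi j hj hij
  rw [Finset.coe_range, Set.mem_Iio] at hi hj
  simp only [nsmul_eq_mul, mul_one, add_right_inj] at hij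
  rw [ZMod.natCast_eq_natCast_iff] at hij
  exact Nat.ModEq.eq_of_lt_of_lt hij (by omega) (by omega)

theorem t_EVN (hCRIT : G_CRIT.{0}) : G_EVN := by
  intro t c k r ht hc hr1 hr2
  obtain ⟨b, rfl⟩ : ∃ b, c = b + 1 := ⟨c - 1, by omega⟩
  have hb : b + 1 - 1 = b := by omega
  rw [T_even, hb]
  set d : ℕ := t * (3 * t + 1) * b + (2 * t + 1) + r with hd
  obtain ⟨w, rfl⟩ : ∃ w, t = w + 1 := ⟨t - 1, by omega⟩
  -- `u = (3t-1) b + 2 + k`
  set u : ℕ := (3 * w + 2) * b + 2 + k with hu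
  refine ⟨(u : ZMod d), 1, prog_card_zmod d (b + 1) u ?_, ?_⟩
  · rw [hd]
    have : b ≤ (w + 1) * (3 * (w + 1) + 1) * b := Nat.le_mul_of_pos_left b (by positivity)
    omega
  rw [hCRIT (ZMod d) (2 * (w + 1)) (b + 1) (u : ZMod d) 1 (by omega)]
  intro e he1 hes i hi1 hi2 heq
  -- congruence
  have h1 : ((((e * u : ℕ) : ℤ) - i : ℤ) : ZMod d) = 0 := by
    push_cast
    rw [nsmul_eq_mul, zsmul_eq_mul, mul_one] at heq
    rw [← heq]
    push_cast
    ring
  rw [ZMod.intCast_zmod_eq_zero_iff_dvd] at h1 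
  obtain ⟨m, hm⟩ := h1
  push_cast at hi1 hi2 hm
  have hbz : (0 : ℤ) ≤ b := by positivity
  have hwz : (0 : ℤ) ≤ w := by positivity
  have hkz : (0 : ℤ) ≤ k := by positivity
  have he1z : (1 : ℤ) ≤ e := by exact_mod_cast he1
  have hesz : (e : ℤ) ≤ 2 * (w + 1) := by exact_mod_cast hes
  have hr1z : ((w : ℤ) + 1) * k ≤ r := by exact_mod_cast hr1
  have hr2z : (r : ℤ) ≤ (w + 1 + 1) * k := by exact_mod_cast hr2
  have huz : (u : ℤ) = (3 * w + 2) * b + 2 + k := by rw [hu]; push_cast; ring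
  have hdz : (d : ℤ) = (w + 1) * (3 * (w + 1) + 1) * b + (2 * (w + 1) + 1) + r := by
    rw [hd]; push_cast; ring
  have hdpos : (0 : ℤ) < d := by rw [hdz]; positivity
  have hi1' : -(2 * ((w : ℤ) + 1) * b) ≤ i := by linarith
  have hi2' : i ≤ (2 * ((w : ℤ) + 1) - e) * b := by linarith
  rcases Nat.lt_or_ge (w + 1) e with hlt | hge
  · -- e ≥ t + 1: `d < e u - i < 2 d`
    have hltz : (w : ℤ) + 2 ≤ e := by exact_mod_cast hlt
    have h2 : (d : ℤ) < e * u - i := by
      have h3 : ((w : ℤ) + 2) * u ≤ e * u := mul_le_mul_of_nonneg_right hltz (by rw [huz]; positivity)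
      have h4 : (2 * ((w : ℤ) + 1) - e) * b ≤ (2 * ((w : ℤ) + 1) - (w + 2)) * b :=
        mul_le_mul_of_nonneg_right (by linarith) hbz
      rw [huz] at h3
      rw [hdz, huz]
      nlinarith
    have h3 : (e : ℤ) * u - i < 2 * d := by
      have h4 : (e : ℤ) * u ≤ 2 * (w + 1) * u := mul_le_mul_of_nonneg_right hesz (by rw [huz]; positivity)
      rw [huz] at h4
      rw [hdz, huz]
      nlinarith
    rw [hm] at h2 h3
    have h4 : 1 < m := by
      by_contra hcon
      have : (d : ℤ) * m ≤ d * 1 := mul_le_mul_of_nonneg_left (by omega) hdpos.le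
      linarith
    have h5 : m < 2 := by
      by_contra hcon
      have : (d : ℤ) * 2 ≤ d * m := mul_le_mul_of_nonneg_left (by omega) hdpos.le
      linarith
    omega
  · -- e ≤ t : `0 < e u - i < d`
    have hgez : (e : ℤ) ≤ w + 1 := by exact_mod_cast hge
    have h2 : (0 : ℤ) < e * u - i := by
      have h3 : (1 : ℤ) * (2 * (w + 1)) ≤ e * (3 * w + 3) := by nlinarith
      have h4 : (2 * ((w : ℤ) + 1) - e) * b ≤ (e * (3 * w + 2)) * b :=
        mul_le_mul_of_nonneg_right (by nlinarith) hbz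
      rw [huz]
      nlinarith
    have h3 : (e : ℤ) * u - i < d := by
      have h4 : (e : ℤ) * u ≤ (w + 1) * u := mul_le_mul_of_nonneg_right hgez (by rw [huz]; positivity)
      rw [huz] at h4
      rw [hdz, huz]
      nlinarith
    rw [hm] at h2 h3
    have h4 : 0 < m := by
      by_contra hcon
      have : (d : ℤ) * m ≤ d * 0 := mul_le_mul_of_nonneg_left (by omega) hdpos.le
      linarith
    have h5 : m < 1 := by
      by_contra hcon
      have : (d : ℤ) * 1 ≤ d * m := mul_le_mul_of_nonneg_left (by omega) hdpos.le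
      linarith
    omega

end Pool.Agent.Helper18.SV
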