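import Pool.Agent.Helper18.SV.Goals

open Finset
open scoped Pointwise

namespace Pool.Agent.Helper18.SV

universe u

theorem t_FRAG : G_FRAG.{u} := by
  intro K _ _ _ B X hB hX2 hXB hXlt
  classical
  have hcard_vadd : ∀ (g : K) (Y : Finset K), (g +ᵥ Y).card = Y.card := fun g Y =>
    Finset.card_vadd_finset g Y
  have hle : ∀ Y : Finset K, Y.card ≤ (Y + B).card := fun Y =>
    Finset.card_le_card_add_right hB
  -- the admissible sets
  set S : Finset (Finset K) := Finset.univ.filter
    (fun Y => 2 ≤ Y.card ∧ (Y + B).card + 2 ≤ Fintype.card K) with hS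
  have memS : ∀ Y : Finset K, Y ∈ S ↔ 2 ≤ Y.card ∧ (Y + B).card + 2 ≤ Fintype.card K := by
    intro Y; simp [hS]
  have hXS : X ∈ S := (memS X).2 ⟨hX2, hXB⟩
  -- minimal `|Y + B| - |Y|`
  obtain ⟨Y₀, hY₀, hmin₀⟩ := Finset.exists_min_image S (fun Y => (Y + B).card - Y.card) ⟨X, hXS⟩
  set κ : ℕ := (Y₀ + B).card - Y₀.card with hκ
  have hκle : ∀ Y ∈ S, Y.card + κ ≤ (Y + B).card := by
    intro Y hY
    have h1 := hmin₀ Y hY
    have h2 := hle Y
    have h3 : κ ≤ (Y + B).card - Y.card := h1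
    omega
  set S' : Finset (Finset K) := S.filter (fun Y => (Y + B).card = Y.card + κ) with hS'
  have hY₀S' : Y₀ ∈ S' := by
    rw [hS', Finset.mem_filter]
    refine ⟨hY₀, ?_⟩
    have := hle Y₀
    omega
  obtain ⟨F₁, hF₁, hmin₁⟩ := Finset.exists_min_image S' (fun Y => Y.card) ⟨Y₀, hY₀S'⟩
  rw [hS', Finset.mem_filter] at hF₁
  obtain ⟨hF₁S, hF₁κ⟩ := hF₁
  have hminF : ∀ Y ∈ S, (Y + B).card = Y.card + κ → F₁.card ≤ Y.card := by
    intro Y hY hYκ
    exact hmin₁ Y (by rw [hS', Finset.mem_filter]; exact ⟨hY, hYκ⟩)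
  have hκB : κ < B.card := by
    have := hκle X hXS
    omega
  obtain ⟨hF2, hFB⟩ := (memS F₁).1 hF₁S
  obtain ⟨f₀, hf₀⟩ : F₁.Nonempty := by
    rw [← Finset.card_pos]; omega
  -- translates
  have hvadd_add : ∀ (g : K) (Y : Finset K), (g +ᵥ Y) + B = g +ᵥ (Y + B) := by
    intro g Y
    ext z
    simp only [Finset.mem_add, Finset.mem_vadd_finset, vadd_eq_add]
    constructor
    · rintro ⟨_, ⟨y, hy, rfl⟩, b, hb, rfl⟩
      exact ⟨y + b, ⟨y, hy, b, hb, rfl⟩, by abel⟩
    · rintro ⟨_, ⟨y, hy, b, hb, rfl⟩, rfl⟩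
      exact ⟨g + y, ⟨y, hy, rfl⟩, b, hb, by abel⟩
  set F : Finset K := -f₀ +ᵥ F₁ with hF
  have hFc : F.card = F₁.card := hcard_vadd _ _
  have hFBc : (F + B).card = (F₁ + B).card := by
    rw [hF, hvadd_add]; exact hcard_vadd _ _
  -- (1)
  have h1 : F.card + (F + B).card ≤ Fintype.card K := by
    rw [hFc, hFBc]
    set Y : Finset K := (F₁ + B)ᶜ with hY
    have hYc : Y.card + (F₁ + B).card = Fintype.card K := by
      rw [hY, add_comm]; exact Finset.card_add_card_compl _
    have hYB : (-Y + B).card + F₁.card ≤ Fintype.card K := by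
      have h2 : (-Y + B).card = (Y - B).card := by
        rw [← Finset.card_neg (Y - B), neg_sub, sub_eq_add_neg, add_comm]
      have h3 : Y - B ⊆ F₁ᶜ := by
        intro z hz
        obtain ⟨y, hy, b, hb, rfl⟩ := Finset.mem_sub.1 hz
        rw [Finset.mem_compl]
        intro hcon
        rw [hY, Finset.mem_compl] at hy
        exact hy (Finset.mem_add.2 ⟨y - b, hcon, b, hb, by abel⟩)
      have h4 := Finset.card_le_card h3
      have h5 := Finset.card_add_card_compl F₁
      omega
    have hnegc : (-Y).card = Y.card := Finset.card_neg Y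
    have hYS : -Y ∈ S := (memS _).2 ⟨by omega, by omega⟩
    have h2 := hκle _ hYS
    have h3 := hminF _ hYS (by omega)
    omega
  refine ⟨F, ?_, by omega, by omega, by omega, ?_⟩
  · rw [hF, Finset.mem_vadd_finset]
    exact ⟨f₀, hf₀, by rw [vadd_eq_add, neg_add_cancel]⟩
  · intro g hg
    by_contra hcon
    push Not at hcon
    have hint2 : 2 ≤ (F ∩ (g +ᵥ F)).card := hcon
    have hFg : (g +ᵥ F).card = F.card := hcard_vadd _ _
    have hFgB : ((g +ᵥ F) + B).card = (F + B).card := by
      rw [hvadd_add]; exact hcard_vadd _ _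
    have hintS : F ∩ (g +ᵥ F) ∈ S := by
      refine (memS _).2 ⟨hint2, ?_⟩
      have h2 : ((F ∩ (g +ᵥ F)) + B).card ≤ (F + B).card :=
        Finset.card_le_card (Finset.add_subset_add_right Finset.inter_subset_left)
      omega
    have hintlt : (F ∩ (g +ᵥ F)).card < F.card := by
      by_contra hge
      have h2 : F ∩ (g +ᵥ F) = F :=
        Finset.eq_of_subset_of_card_le Finset.inter_subset_left (by omega)
      have h3 : F ⊆ g +ᵥ F := by
        intro z hz
        have h4 : z ∈ F ∩ (g +ᵥ F) := by rw [h2]; exact hz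
        exact (Finset.mem_inter.1 h4).2
      exact hg (Finset.eq_of_subset_of_card_le h3 (by omega)).symm
    have h2 := hκle _ hintS
    have h3 : ((F ∩ (g +ᵥ F)) + B).card ≠ (F ∩ (g +ᵥ F)).card + κ := by
      intro he
      have := hminF _ hintS he
      omega
    have h4 := Pool.Agent.Helper95.SF.card_union_add_inter_le F (g +ᵥ F) B
    have h5 := Finset.card_union_add_card_inter F (g +ᵥ F)
    -- the union is not admissible
    have h6 : F ∪ (g +ᵥ F) ∉ S := by
      intro hcon
      have := hκle _ hcon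
      omega
    have h7 : Fintype.card K < ((F ∪ (g +ᵥ F)) + B).card + 2 := by
      by_contra h8
      exact h6 ((memS _).2 ⟨by
        have : F.card ≤ (F ∪ (g +ᵥ F)).card := Finset.card_le_card Finset.subset_union_left
        omega, by omega⟩)
    omega

end Pool.Agent.Helper18.SV
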