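import Pool.Agent.Helper18.SV.Goals

open Finset
open scoped Pointwise

namespace Pool.Agent.Helper18.SV

open Pool.Agent.Helper95.SF

universe u

theorem t_ODD (hCRIT : G_CRIT.{0}) : G_ODD := by
  intro t c N ht hc hcop hN
  obtain ⟨b, rfl⟩ : ∃ b, c = b + 1 := ⟨c - 1, by omega⟩
  have hb : b + 1 - 1 = b := by omega
  rw [hb] at hN
  have hNb : b + 2 ≤ N := by
    have : b ≤ (3 * t + 1) * b := Nat.le_mul_of_pos_left b (by positivity)
    omega
  -- Chinese remainder theorem
  obtain ⟨x, hx1, hx2⟩ := Nat.chineseRemainder hcop 1 (t * b + 1)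
  set d : ℕ := (t + 1) * N with hd
  have hdpos : 0 < d := by rw [hd]; exact Nat.mul_pos (by omega) (by omega)
  refine ⟨(x : ZMod d), ((t + 1 : ℕ) : ZMod d), ?_, ?_⟩
  · unfold prog
    rw [Finset.card_image_of_injOn, Finset.card_range]
    intro i hi j hj hij
    rw [Finset.coe_range, Set.mem_Iio] at hi hj
    simp only [nsmul_eq_mul, add_right_inj] at hij
    rw [← Nat.cast_mul, ← Nat.cast_mul, ZMod.natCast_eq_natCast_iff] at hij
    rw [mul_comm i, mul_comm j, hd] at hij
    have h1 : i ≡ j [MOD N] := Nat.ModEq.mul_left_cancel' (by omega) hij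
    exact Nat.ModEq.eq_of_lt_of_lt h1 (by omega) (by omega)
  rw [hCRIT (ZMod d) (2 * t + 1) (b + 1) _ _ (by omega)]
  intro e he1 hes i hi1 hi2 heq
  -- the congruence mod d
  have h1 : ((((e : ℤ) * x - i * (t + 1) : ℤ)) : ZMod d) = 0 := by
    push_cast
    rw [nsmul_eq_mul, zsmul_eq_mul] at heq
    push_cast at heq
    rw [heq]
    ring
  rw [ZMod.intCast_zmod_eq_zero_iff_dvd] at h1
  have hdz : (d : ℤ) = ((t : ℤ) + 1) * N := by rw [hd]; push_cast; ring
  -- mod t + 1
  have h2 : ((t : ℤ) + 1) ∣ e := by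
    have h3 : ((t : ℤ) + 1) ∣ (e : ℤ) * x - i * (t + 1) := by
      refine dvd_trans ?_ h1
      rw [hdz]; exact dvd_mul_right _ _
    have h4 : ((t : ℤ) + 1) ∣ (e : ℤ) * x := by
      have := dvd_add h3 (dvd_mul_left ((t : ℤ) + 1) i)
      simpa using this
    have h5 : ((t : ℤ) + 1) ∣ (x : ℤ) - 1 := by
      have := Nat.modEq_iff_dvd.1 hx1.symm
      push_cast at this
      exact this
    have h6 : (e : ℤ) = e * x - e * (x - 1) := by ring
    rw [h6]
    exact dvd_sub h4 (h5.mul_left _)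
  have he : e = t + 1 := by
    obtain ⟨m, hm⟩ := h2
    have he1z : (1 : ℤ) ≤ e := by exact_mod_cast he1
    have hesz : (e : ℤ) ≤ 2 * t + 1 := by exact_mod_cast hes
    have htz : (1 : ℤ) ≤ t := by exact_mod_cast ht
    have hm1 : 0 < m := by
      by_contra hcon
      have : ((t : ℤ) + 1) * m ≤ (t + 1) * 0 := mul_le_mul_of_nonneg_left (by omega) (by omega)
      linarith
    have hm2 : m < 2 := by
      by_contra hcon
      have : ((t : ℤ) + 1) * 2 ≤ (t + 1) * m := mul_le_mul_of_nonneg_left (by omega) (by omega)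
      linarith
    have : m = 1 := by omega
    rw [this, mul_one] at hm
    exact_mod_cast hm
  subst he
  -- mod N
  have h3 : (N : ℤ) ∣ (x : ℤ) - i := by
    rw [hdz] at h1
    have h4 : ((t + 1 : ℕ) : ℤ) * x - i * (t + 1) = ((t : ℤ) + 1) * (x - i) := by push_cast; ring
    rw [h4] at h1
    exact (mul_dvd_mul_iff_left (by positivity)).1 h1
  have h4 : (N : ℤ) ∣ (x : ℤ) - (t * b + 1) := by
    have := Nat.modEq_iff_dvd.1 hx2.symm
    push_cast at this
    exact this
  have h5 : (N : ℤ) ∣ (t * b + 1) - i := by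
    have h6 : (t : ℤ) * b + 1 - i = (x - i) - (x - (t * b + 1)) := by ring
    rw [h6]
    exact dvd_sub h3 h4
  push_cast at hi1 hi2
  have hNz : (3 * (t : ℤ) + 1) * b + 2 ≤ N := by exact_mod_cast hN
  obtain ⟨m, hm⟩ := h5
  have hlow : (0 : ℤ) < (t * b + 1) - i := by nlinarith
  have hupp : ((t : ℤ) * b + 1) - i < N := by nlinarith
  rw [hm] at hlow hupp
  have hNpos : (0 : ℤ) < N := by
    have : 0 < N := by omega
    exact_mod_cast this
  have h7 : 0 < m := by
    by_contra hcon
    have : (N : ℤ) * m ≤ N * 0 := mul_le_mul_of_nonneg_left (by omega) hNpos.le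
    linarith
  have h8 : m < 1 := by
    by_contra hcon
    have : (N : ℤ) * 1 ≤ N * m := mul_le_mul_of_nonneg_left (by omega) hNpos.le
    linarith
  omega

end Pool.Agent.Helper18.SV
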