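import Pool.Agent.Helper18.SV.Goals

open Finset
open scoped Pointwise

namespace Pool.Agent.Helper18.SV

universe u

theorem t_OLS : G_OLS.{u} := by
  intro G _ _ _ K B h0 hB X g hX hXg
  classical
  set Kf : Finset G := Finset.univ.filter (fun x => x ∈ K) with hKf
  have hK : ∀ x, x ∈ Kf ↔ x ∈ K := by intro x; simp [hKf]
  have hKc : Kf.card = Nat.card K := by
    rw [hKf, Nat.card_eq_fintype_card, Fintype.card_subtype]
  -- translate
  set Y : Finset G := -g +ᵥ X with hY
  have hYc : Y.card = X.card := Finset.card_vadd_finset _ _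
  have hYB : Y + B = -g +ᵥ (X + B) := by
    ext z
    simp only [hY, Finset.mem_add, Finset.mem_vadd_finset, vadd_eq_add]
    constructor
    · rintro ⟨_, ⟨y, hy, rfl⟩, b, hb, rfl⟩
      exact ⟨y + b, ⟨y, hy, b, hb, rfl⟩, by abel⟩
    · rintro ⟨_, ⟨y, hy, b, hb, rfl⟩, rfl⟩
      exact ⟨-g + y, ⟨y, hy, rfl⟩, b, hb, by abel⟩
  have hYBc : (Y + B).card = (X + B).card := by
    rw [hYB]; exact Finset.card_vadd_finset _ _
  have hYK : Y ⊆ Kf := by
    intro z hz
    obtain ⟨y, hy, rfl⟩ := Finset.mem_vadd_finset.1 hz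
    rw [hK, vadd_eq_add, neg_add_eq_sub]
    exact hXg y hy
  have hYne : Y.Nonempty := by
    rw [← Finset.card_pos, hYc]; exact Finset.card_pos.2 hX
  rcases eq_or_ne (Y + B) Kf with h | h
  · left
    rw [← hYBc, h, hKc]
  · right
    obtain ⟨h', u, hh, hu, -, hBu, -, hol⟩ :=
      Pool.Agent.Helper95.SF.olson K Kf hK B h0 hB ⟨Y, hYne, hYK, h⟩
    have h1 := hol Y hYne hYK h
    rw [hYc, hYBc] at h1
    have h2 : (u + 1) * h' ≤ 2 * (u * h') := by nlinarith
    omega

end Pool.Agent.Helper18.SV
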