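import Pool.Agent.Helper18.SV.Goals

open Finset
open scoped Pointwise

namespace Pool.Agent.Helper18.SV

universe u

theorem t_RIG : G_RIG.{u} := by
  intro H _ _ s A hrig h2 x hx e he1 hes hex
  have key : e = s := by
    by_contra hne
    obtain ⟨x', hx', hxx'⟩ : ∃ x' ∈ A, x' ≠ x := by
      by_contra hcon
      push Not at hcon
      have h1 : A ⊆ {x} := fun y hy => Finset.mem_singleton.2 (hcon y hy)
      have h3 := Finset.card_le_card h1
      rw [Finset.card_singleton] at h3
      omega
    obtain ⟨y, -, hy1, hy2⟩ := hrig (x' ::ₘ Multiset.replicate e x) {x'}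
      (by
        intro a ha
        rcases Multiset.mem_cons.1 ha with rfl | ha
        · exact hx'
        · rw [Multiset.eq_of_mem_replicate ha]; exact hx)
      (by
        intro a ha
        rw [Multiset.mem_singleton.1 ha]; exact hx')
      (by simp; omega) (by simp; omega) (by simp; omega)
      (by simp [hex])
    have e1 : x' = y := hy2 x' (Multiset.mem_singleton_self x')
    have e2 : x = y := hy1 x (Multiset.mem_cons_of_mem (Multiset.mem_replicate.2 ⟨by omega, rfl⟩))
    exact hxx' (e1.trans e2.symm)
  refine ⟨key, ?_⟩
  subst key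
  have hdvd : addOrderOf x ∣ e := addOrderOf_dvd_of_nsmul_eq_zero hex
  have hpos : 0 < addOrderOf x := Nat.pos_of_dvd_of_pos hdvd (by omega)
  have hle : addOrderOf x ≤ e := Nat.le_of_dvd (by omega) hdvd
  by_contra hne
  -- the same argument with the order in place of `e`
  obtain ⟨x', hx', hxx'⟩ : ∃ x' ∈ A, x' ≠ x := by
    by_contra hcon
    push Not at hcon
    have h1 : A ⊆ {x} := fun y hy => Finset.mem_singleton.2 (hcon y hy)
    have h3 := Finset.card_le_card h1
    rw [Finset.card_singleton] at h3
    omega
  obtain ⟨y, -, hy1, hy2⟩ := hrig (x' ::ₘ Multiset.replicate (addOrderOf x) x) {x'}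
    (by
      intro a ha
      rcases Multiset.mem_cons.1 ha with rfl | ha
      · exact hx'
      · rw [Multiset.eq_of_mem_replicate ha]; exact hx)
    (by
      intro a ha
      rw [Multiset.mem_singleton.1 ha]; exact hx')
    (by simp; omega) (by simp; omega)
    (by rw [Multiset.card_cons, Multiset.card_replicate, Multiset.card_singleton]; omega)
    (by simp [addOrderOf_nsmul_eq_zero])
  have e1 : x' = y := hy2 x' (Multiset.mem_singleton_self x')
  have e2 : x = y := hy1 x (Multiset.mem_cons_of_mem (Multiset.mem_replicate.2 ⟨by omega, rfl⟩))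
  exact hxx' (e1.trans e2.symm)

end Pool.Agent.Helper18.SV
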