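import Pool.Agent.Helper18.SV.Goals

open Finset
open scoped Pointwise

namespace Pool.Agent.Helper18.SV

universe u

theorem three_translates {K : Type u} [AddCommGroup K] [DecidableEq K] (F F' : Finset K)
    (hF : ∀ g : K, g ≠ 0 → (F ∩ (g +ᵥ F)).card ≤ 1) (h3 : 3 ≤ F'.card) :
    3 * F.card ≤ (F' + F).card + 3 := by
  classical
  obtain ⟨x, hx, y, hy, z, hz, hxy, hxz, hyz⟩ := Finset.two_lt_card.1 (show 2 < F'.card by omega)
  have hpair : ∀ a b : K, a ≠ b → ((a +ᵥ F) ∩ (b +ᵥ F)).card ≤ 1 := by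
    intro a b hab
    have h1 := hF (-a + b) (by
      intro h
      exact hab (by rw [neg_add_eq_zero] at h; exact h))
    have h2 : (a +ᵥ F) ∩ (b +ᵥ F) = a +ᵥ (F ∩ ((-a + b) +ᵥ F)) := by
      rw [Finset.vadd_finset_inter, vadd_vadd, add_neg_cancel_left]
    rw [h2, Finset.card_vadd_finset]
    exact h1
  have hsub : (x +ᵥ F) ∪ (y +ᵥ F) ∪ (z +ᵥ F) ⊆ F' + F := by
    intro w hw
    simp only [Finset.mem_union, Finset.mem_vadd_finset, vadd_eq_add] at hw
    rcases hw with (⟨f, hf, rfl⟩ | ⟨f, hf, rfl⟩) | ⟨f, hf, rfl⟩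
    · exact Finset.add_mem_add hx hf
    · exact Finset.add_mem_add hy hf
    · exact Finset.add_mem_add hz hf
  have h1 := Finset.card_le_card hsub
  have h2 := Finset.card_union_add_card_inter ((x +ᵥ F) ∪ (y +ᵥ F)) (z +ᵥ F)
  have h4 := Finset.card_union_add_card_inter (x +ᵥ F) (y +ᵥ F)
  have h5 : (((x +ᵥ F) ∪ (y +ᵥ F)) ∩ (z +ᵥ F)).card ≤ 2 := by
    rw [Finset.union_inter_distrib_right]
    have h6 := Finset.card_union_le ((x +ᵥ F) ∩ (z +ᵥ F)) ((y +ᵥ F) ∩ (z +ᵥ F))
    have h7 := hpair x z hxz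
    have h8 := hpair y z hyz
    omega
  have h6 := hpair x y hxy
  rw [Finset.card_vadd_finset] at h2
  rw [Finset.card_vadd_finset, Finset.card_vadd_finset] at h4
  omega

theorem t_SID (hFRAG : G_FRAG.{u}) (hSUB : G_SUB.{u}) : G_SID.{u} := by
  intro K _ _ _ F B h0 hcl h3 hF hB2 hFB hlt
  classical
  have hFne : F.Nonempty := ⟨0, h0⟩
  obtain ⟨F', h0', h2', hcard', hlt', htr⟩ := hFRAG K F B hFne hB2 (by rw [add_comm B F]; exact hFB)
    (by rw [add_comm B F]; omega)
  rcases Nat.lt_or_ge F'.card 3 with hk | hk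
  · -- two elements
    have hk2 : F'.card = 2 := by omega
    obtain ⟨x, y, hxy, he⟩ := Finset.card_eq_two.1 hk2
    have hsub : (x +ᵥ F) ∪ (y +ᵥ F) ⊆ F' + F := by
      intro w hw
      simp only [Finset.mem_union, Finset.mem_vadd_finset, vadd_eq_add] at hw
      rcases hw with ⟨f, hf, rfl⟩ | ⟨f, hf, rfl⟩
      · exact Finset.add_mem_add (by rw [he]; simp) hf
      · exact Finset.add_mem_add (by rw [he]; simp) hf
    have h1 := Finset.card_le_card hsub
    have h4 := Finset.card_union_add_card_inter (x +ᵥ F) (y +ᵥ F)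
    have h5 : ((x +ᵥ F) ∩ (y +ᵥ F)).card ≤ 1 := by
      have h6 := hF (-x + y) (by
        intro h
        exact hxy (by rw [neg_add_eq_zero] at h; exact h))
      have h2 : (x +ᵥ F) ∩ (y +ᵥ F) = x +ᵥ (F ∩ ((-x + y) +ᵥ F)) := by
        rw [Finset.vadd_finset_inter, vadd_vadd, add_neg_cancel_left]
      rw [h2, Finset.card_vadd_finset]
      exact h6
    rw [Finset.card_vadd_finset, Finset.card_vadd_finset] at h4
    omega
  have h5 := three_translates F F' hF hk
  by_cases hst : ∃ g : K, g ≠ 0 ∧ g +ᵥ F' = F'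
  · obtain ⟨Q, hQ⟩ := hSUB K F' h0' htr hst
    have hmem : ∀ x, x ∈ F' ↔ x ∈ Q := by
      intro x
      rw [← Finset.mem_coe, hQ]; rfl
    have hQtop : Q ≠ ⊤ := by
      intro h
      have h1 : F' = Finset.univ := by
        ext x; simp [hmem, h]
      have h2 : (F' + F).card ≥ F'.card := Finset.card_le_card_add_right hFne
      rw [h1, Finset.card_univ] at h2
      rw [h1] at hcard'
      omega
    -- the cosets
    have hQfin : Fintype (K ⧸ Q) := Fintype.ofFinite _
    set π : K → K ⧸ Q := fun x => (x : K ⧸ Q) with hπ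
    set I : Finset (K ⧸ Q) := F.image π with hI
    set nn : K ⧸ Q → ℕ := fun c => (F.filter (fun x => π x = c)).card with hnn
    have hsum : F.card = ∑ c ∈ I, nn c :=
      Finset.card_eq_sum_card_fiberwise (fun a ha => Finset.mem_image_of_mem π ha)
    have hpos : ∀ c ∈ I, 1 ≤ nn c := by
      intro c hc
      obtain ⟨x, hx, rfl⟩ := Finset.mem_image.1 hc
      exact Finset.card_pos.2 ⟨x, Finset.mem_filter.2 ⟨hx, rfl⟩⟩
    have hpi : ∀ x y : K, π x = π y ↔ y - x ∈ Q := by
      intro x y
      rw [hπ]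
      show (x : K ⧸ Q) = (y : K ⧸ Q) ↔ _
      rw [QuotientAddGroup.eq, neg_add_eq_sub]
    -- |F' + F| = t |Q|
    have hsumset : (F' + F).card = I.card * F'.card := by
      have h1 : (F' + F).card = ∑ c ∈ I, ((F' + F).filter (fun x => π x = c)).card := by
        apply Finset.card_eq_sum_card_fiberwise
        intro a ha
        obtain ⟨q, hq, f, hf, rfl⟩ := Finset.mem_add.1 (Finset.mem_coe.1 ha)
        have h2 : π (q + f) = π f := by
          rw [hpi]
          have : f - (q + f) = -q := by abel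
          rw [this]
          exact Q.neg_mem ((hmem q).1 hq)
        rw [h2]
        exact Finset.mem_coe.2 (Finset.mem_image_of_mem π hf)
      rw [h1, Finset.sum_congr rfl (g := fun _ => F'.card)]
      · rw [Finset.sum_const, smul_eq_mul]
      · intro c hc
        obtain ⟨x, hx, rfl⟩ := Finset.mem_image.1 hc
        have h2 : (F' + F).filter (fun y => π y = π x) = x +ᵥ F' := by
          ext y
          simp only [Finset.mem_filter, Finset.mem_vadd_finset, vadd_eq_add]
          constructor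
          · rintro ⟨-, hy⟩
            refine ⟨y - x, ?_, by abel⟩
            rw [hmem]
            exact (hpi x y).1 hy.symm
          · rintro ⟨q, hq, rfl⟩
            refine ⟨Finset.mem_add.2 ⟨q, hq, x, hx, add_comm _ _⟩, ?_⟩
            rw [eq_comm, hpi, add_sub_cancel_left]
            exact (hmem q).1 hq
        rw [h2, Finset.card_vadd_finset]
    -- t ≥ 2
    have ht2 : 2 ≤ I.card := by
      by_contra hcon
      have hI1 : I.card ≤ 1 := by omega
      apply hQtop
      rw [eq_top_iff, ← hcl, AddSubgroup.closure_le]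
      intro f hf
      have h1 := Finset.card_le_one.1 hI1 (π 0) (Finset.mem_image_of_mem π h0) (π f)
        (Finset.mem_image_of_mem π (Finset.mem_coe.1 hf))
      rw [hpi, sub_zero] at h1
      exact h1
    -- pairs
    have hpairs : ∑ c ∈ I, nn c * (nn c - 1) ≤ F'.card - 1 := by
      set P : Finset (K × K) := (F ×ˢ F).filter (fun p => p.1 ≠ p.2 ∧ π p.1 = π p.2) with hP
      have h1 : P.card = ∑ c ∈ I, nn c * (nn c - 1) := by
        have h2 : P.card = ∑ c ∈ I, (P.filter (fun p => π p.1 = c)).card := by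
          apply Finset.card_eq_sum_card_fiberwise
          intro p hp
          rw [Finset.mem_coe, hP, Finset.mem_filter, Finset.mem_product] at hp
          exact Finset.mem_coe.2 (Finset.mem_image_of_mem π hp.1.1)
        rw [h2]
        apply Finset.sum_congr rfl
        intro c _
        have h4 : P.filter (fun p => π p.1 = c) = (F.filter (fun x => π x = c)).offDiag := by
          ext ⟨a, b⟩
          simp only [hP, Finset.mem_filter, Finset.mem_product, Finset.mem_offDiag]
          constructor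
          · rintro ⟨⟨⟨ha, hb⟩, hne, hab⟩, hac⟩
            exact ⟨⟨ha, hac⟩, ⟨hb, hab ▸ hac⟩, hne⟩
          · rintro ⟨⟨ha, hac⟩, ⟨hb, hbc⟩, hne⟩
            exact ⟨⟨⟨ha, hb⟩, hne, hac.trans hbc.symm⟩, hac⟩
        rw [h4, Finset.offDiag_card, Nat.mul_sub_one]
      rw [← h1]
      have h2 : P.card ≤ (F'.erase 0).card := by
        apply Finset.card_le_card_of_injOn (fun p => p.1 - p.2)
        · intro p hp
          rw [Finset.mem_coe, hP, Finset.mem_filter, Finset.mem_product] at hp
          rw [Finset.mem_coe, Finset.mem_erase]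
          refine ⟨sub_ne_zero.2 hp.2.1, ?_⟩
          rw [hmem]
          exact (hpi p.2 p.1).1 hp.2.2.symm
        · intro p hp q hq hpq
          rw [Finset.mem_coe, hP, Finset.mem_filter, Finset.mem_product] at hp hq
          simp only at hpq
          have h6 := hF (p.1 - p.2) (sub_ne_zero.2 hp.2.1)
          have h7 : p.1 ∈ F ∩ ((p.1 - p.2) +ᵥ F) := by
            refine Finset.mem_inter.2 ⟨hp.1.1, Finset.mem_vadd_finset.2 ⟨p.2, hp.1.2, ?_⟩⟩
            rw [vadd_eq_add]; abel
          have h8 : q.1 ∈ F ∩ ((p.1 - p.2) +ᵥ F) := by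
            refine Finset.mem_inter.2 ⟨hq.1.1, Finset.mem_vadd_finset.2 ⟨q.2, hq.1.2, ?_⟩⟩
            rw [vadd_eq_add, hpq]; abel
          have h9 := Finset.card_le_one.1 h6 _ h7 _ h8
          have h10 : p.2 = q.2 := by
            have : p.1 - (p.1 - p.2) = q.1 - (q.1 - q.2) := by rw [hpq, h9]
            simpa using this
          exact Prod.ext h9 h10
      rw [Finset.card_erase_of_mem h0'] at h2
      exact h2
    have hlow : ∑ c ∈ I, 2 * (nn c - 1) ≤ ∑ c ∈ I, nn c * (nn c - 1) := by
      apply Finset.sum_le_sum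
      intro c hc
      have h1 := hpos c hc
      rcases Nat.lt_or_ge (nn c) 2 with h2 | h2
      · have : nn c - 1 = 0 := by omega
        rw [this]; simp
      · exact Nat.mul_le_mul_right _ h2
    have hsum1 : ∑ c ∈ I, (nn c - 1) + I.card = F.card := by
      rw [hsum, Finset.card_eq_sum_ones, ← Finset.sum_add_distrib]
      apply Finset.sum_congr rfl
      intro c hc
      have := hpos c hc
      omega
    rw [← Finset.mul_sum] at hlow
    rw [hsumset] at hlt'
    obtain ⟨t, ht⟩ : ∃ t, I.card = t + 2 := ⟨I.card - 2, by omega⟩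
    obtain ⟨q, hq⟩ : ∃ q, F'.card = q + 3 := ⟨F'.card - 3, by omega⟩
    rw [ht] at hlt' hsum1
    rw [hq] at hlt' hpairs
    have e1 : (t + 2) * (q + 3) = t * q + 3 * t + 2 * q + 6 := by ring
    rw [e1] at hlt'
    omega
  · push Not at hst
    have hF' : ∀ g : K, g ≠ 0 → (F' ∩ (g +ᵥ F')).card ≤ 1 := fun g hg => htr g (hst g hg)
    have h6 := three_translates F' F hF' h3
    rw [add_comm F F'] at h6
    omega

end Pool.Agent.Helper18.SV
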