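import Pool.Agent.Helper18.SV.Goals

open Finset
open scoped Pointwise

namespace Pool.Agent.Helper18.SV

universe u

theorem t_SUB : G_SUB.{u} := by
  intro K _ _ F h0 hF hg
  have hQ : ∀ g : K, g +ᵥ F = F → g ∈ F := by
    intro g hg
    have h1 : g +ᵥ (0 : K) ∈ g +ᵥ F := Finset.vadd_mem_vadd_finset h0
    rw [hg, vadd_eq_add, add_zero] at h1
    exact h1
  obtain ⟨g, hg0, hgF⟩ := hg
  -- every element of `F` stabilizes `F`
  have key : ∀ v ∈ F, v +ᵥ F = F := by
    intro v hv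
    by_contra hne
    have h1 := hF v hne
    have h2 : v ∈ F ∩ (v +ᵥ F) := by
      refine Finset.mem_inter.2 ⟨hv, ?_⟩
      have h3 : v +ᵥ (0 : K) ∈ v +ᵥ F := Finset.vadd_mem_vadd_finset h0
      rwa [vadd_eq_add, add_zero] at h3
    have h3 : g + v ∈ F ∩ (v +ᵥ F) := by
      refine Finset.mem_inter.2 ⟨?_, ?_⟩
      · have h4 : g +ᵥ v ∈ g +ᵥ F := Finset.vadd_mem_vadd_finset hv
        rw [hgF, vadd_eq_add] at h4
        exact h4
      · have h4 : v +ᵥ g ∈ v +ᵥ F := Finset.vadd_mem_vadd_finset (hQ g hgF)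
        rw [vadd_eq_add, add_comm] at h4
        exact h4
    have h4 : v = g + v := Finset.card_le_one.1 h1 v h2 (g + v) h3
    exact hg0 (by simpa using h4.symm)
  refine ⟨{ carrier := F, add_mem' := ?_, zero_mem' := h0, neg_mem' := ?_ }, rfl⟩
  · intro a b ha hb
    have h1 : a +ᵥ b ∈ a +ᵥ F := Finset.vadd_mem_vadd_finset hb
    rw [key a ha, vadd_eq_add] at h1
    exact h1
  · intro a ha
    have h1 : (0 : K) ∈ a +ᵥ F := by rw [key a ha]; exact h0
    obtain ⟨b, hb, hab⟩ := Finset.mem_vadd_finset.1 h1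
    rw [vadd_eq_add] at hab
    have h2 : b = -a := by rw [eq_neg_iff_add_eq_zero, add_comm]; exact hab
    rw [h2] at hb
    exact hb

end Pool.Agent.Helper18.SV
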