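import Pool.Agent.Helper18.SV.Goals

open Finset
open scoped Pointwise

namespace Pool.Agent.Helper18.SV

universe u

theorem t_TRI (hFRAG : G_FRAG.{u}) (hSUB : G_SUB.{u}) (hSID : G_SID.{u}) (hNG : G_NG.{u})
    (hPAIR : G_PAIR.{u}) : G_TRI.{u} := by
  intro K _ _ _ B h0 h2 hcl
  by_cases hgrow : ∀ X : Finset K, 2 ≤ X.card → (X + B).card + 2 ≤ Fintype.card K →
        X.card + B.card ≤ (X + B).card
  · exact Or.inr (Or.inr hgrow)
  push Not at hgrow
  obtain ⟨X, hX2, hXB, hXlt⟩ := hgrow
  have hBne : B.Nonempty := ⟨0, h0⟩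
  obtain ⟨F, hF0, hF2, hFB, hFlt, htr⟩ := hFRAG K B X hBne hX2 hXB hXlt
  by_cases hgen : AddSubgroup.closure (F : Set K) = ⊤
  · by_cases hst : ∃ g : K, g ≠ 0 ∧ g +ᵥ F = F
    · exfalso
      obtain ⟨Q, hQ⟩ := hSUB K F hF0 htr hst
      rw [hQ, AddSubgroup.closure_eq] at hgen
      have h1 : F = Finset.univ := by
        ext x
        have : x ∈ (F : Set K) := by rw [hQ, hgen]; trivial
        simpa using this
      have h3 : F.card ≤ (F + B).card := Finset.card_le_card_add_right hBne
      rw [h1, Finset.card_univ] at h3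
      rw [h1] at hFB
      omega
    · push Not at hst
      have hF : ∀ g : K, g ≠ 0 → (F ∩ (g +ᵥ F)).card ≤ 1 := fun g hg => htr g (hst g hg)
      rcases Nat.lt_or_ge F.card 3 with hlt | hge
      · left
        have hF2' : F.card = 2 := by omega
        have hFe : (F.erase 0).card = 1 := by
          rw [Finset.card_erase_of_mem hF0, hF2']
        obtain ⟨r, hr⟩ := Finset.card_eq_one.1 hFe
        have hFr : F = {0, r} := by
          rw [← Finset.insert_erase hF0, hr]
        refine hPAIR K r B ?_ hBne ?_ ?_
        · rw [eq_top_iff, ← hgen, AddSubgroup.closure_le]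
          intro x hx
          rw [hFr] at hx
          simp only [Finset.coe_insert, Finset.coe_singleton, Set.mem_insert_iff,
            Set.mem_singleton_iff] at hx
          rcases hx with rfl | rfl
          · exact AddSubgroup.zero_mem _
          · exact AddSubgroup.subset_closure (Set.mem_singleton _)
        · intro hu
          have h3 : B.card ≤ (F + B).card := Finset.card_le_card_add_left ⟨0, hF0⟩
          rw [hu, Finset.card_univ] at h3
          rw [hu] at hFB
          omega
        · rw [← hFr]; omega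
      · exact (hSID K F B hF0 hgen hge hF h2 hFB hFlt).elim
  · exact Or.inr (Or.inl (hNG K F B hF0 hF2 h0 hcl hgen hFlt))

end Pool.Agent.Helper18.SV
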