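import Pool.Agent.Helper18.SV.Final
import Pool.Agent.Helper18.SV.FRAG
import Pool.Agent.Helper18.SV.SUB
import Pool.Agent.Helper18.SV.SID
import Pool.Agent.Helper18.SV.RIG
import Pool.Agent.Helper18.SV.OLS
import Pool.Agent.Helper18.SV.TRI
import Pool.Agent.Helper18.SV.CRIT
import Pool.Agent.Helper18.SV.EVN
import Pool.Agent.Helper18.SV.ODD
import Pool.Agent.Helper30.SV.NG
import Pool.Agent.Helper90.SV.PAIR
import Pool.Agent.Helper62.SV.TRA
import Pool.Agent.Helper28.SV.FIB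
import Pool.Agent.Helper89.SV.FILL
import Pool.Agent.Helper2.SV.FIN
import Pool.Agent.Helper2.SV.GC
import Pool.Agent.Helper85.SV.GB
import Pool.Agent.Helper81.SV.RED
import Pool.Agent.Helper79.SV.BND
import Pool.Agent.Helper35.SV.GA

/-!
# Project SV (MP_cb0067_co): all goals
-/

namespace Pool.Agent.Helper18.SV

universe u

theorem g_TRI : G_TRI.{u} :=
  t_TRI t_FRAG t_SUB (t_SID t_FRAG t_SUB) (Pool.Agent.Helper30.SV.NG.t t_OLS)
    Pool.Agent.Helper90.SV.t

theorem all : AllGoals.{u} where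
  tra := Pool.Agent.Helper62.SV.t g_TRI
  fib := Pool.Agent.Helper28.SV.FIB.t
  fill := Pool.Agent.Helper89.SV.FILL.t
  rig := t_RIG
  ga := Pool.Agent.Helper35.SV.t
  gb := Pool.Agent.Helper85.SV.GB.t t_RIG
  gc := Pool.Agent.Helper2.SV.GC.t t_RIG
  fin := Pool.Agent.Helper2.SV.t t_OLS
  red := Pool.Agent.Helper81.SV.t

theorem g_BND : G_BND := Pool.Agent.Helper79.SV.t t_CRIT

theorem g_EVN : G_EVN := t_EVN t_CRIT

theorem g_ODD : G_ODD := t_ODD t_CRIT

end Pool.Agent.Helper18.SV
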