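import Mathlib
import Pool.Agent.Helper95.SF.Reduce

/-!
Project SV (MP_cb0067_co): maximum `[0,s]`-sum-free sets, definitions.

`nsum A h`, `IsSumFree s A`, `S A j k = jA - kA`, `D s = ⌈3(s+1)²/4⌉`, `mu G s` are those of
`Pool/Agent/Helper95/SF`.
-/

open Finset
open scoped Pointwise

namespace Pool.Agent.Helper18.SV

open Pool.Agent.Helper95.SF

universe u

/-- `T = ⌈3(s+1)²/4⌉ - (s+1)` -/
def T (s : ℕ) : ℕ := D s - (s + 1)

section

variable {G : Type u} [AddCommGroup G]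

/-- the progression `x, x + y, …, x + (c-1) y` -/
def prog [DecidableEq G] (x y : G) (c : ℕ) : Finset G :=
  (Finset.range c).image (fun i : ℕ => x + i • y)

/-- `A` is an arithmetic progression (with `|A|` distinct terms) -/
def IsAP [DecidableEq G] (A : Finset G) : Prop :=
  ∃ (x y : G) (c : ℕ), A = prog x y c ∧ A.card = c

/-- the subgroup generated by `A - A` -/
def dif [DecidableEq G] (A : Finset G) : AddSubgroup G :=
  AddSubgroup.closure ((A - A : Finset G) : Set G)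

/-- the number of `M`-cosets that meet `A` -/
noncomputable def nc (M : AddSubgroup G) (A : Finset G) : ℕ :=
  ((fun a : G => (a : G ⧸ M)) '' (A : Set G)).ncard

/-- `A` meets at least two cosets of `M`, and `|A + M| < |A| + |M|` -/
def Near (M : AddSubgroup G) (A : Finset G) : Prop :=
  2 ≤ nc M A ∧ nc M A * Nat.card M < A.card + Nat.card M

/-- the growth property of the generic case -/
def Grow [DecidableEq G] (A : Finset G) : Prop :=
  ∀ j k : ℕ, 1 ≤ j + k → (S A j k).card + 2 ≤ Nat.card (dif A) →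
    (j + k) * A.card ≤ (S A j k).card

/-- every relation `a₁ + ⋯ + a_p = b₁ + ⋯ + b_q` with `p ≠ q`, `p, q ≤ s` between elements of `A`
is constant -/
def Rig (s : ℕ) (A : Finset G) : Prop :=
  ∀ U V : Multiset G, (∀ a ∈ U, a ∈ A) → (∀ a ∈ V, a ∈ A) → Multiset.card U ≤ s →
    Multiset.card V ≤ s → Multiset.card U ≠ Multiset.card V → U.sum = V.sum →
    ∃ x ∈ A, (∀ a ∈ U, a = x) ∧ (∀ a ∈ V, a = x)

end

/-- there is a `[0,s]`-sum-free arithmetic progression of `c` distinct terms in `ℤ_d` -/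
def Adm (s d c : ℕ) : Prop :=
  ∃ x y : ZMod d, (prog x y c).card = c ∧ IsSumFree s (prog x y c)

/-- the same with first term `1` -/
def Adm1 (s d c : ℕ) : Prop :=
  ∃ y : ZMod d, (prog 1 y c).card = c ∧ IsSumFree s (prog 1 y c)

section basic

variable {G : Type u} [AddCommGroup G] [DecidableEq G]

/-- elements of `hA` are the sums of the multisets of `h` elements of `A` -/
theorem mem_nsum_iff (A : Finset G) (h : ℕ) (z : G) :
    z ∈ nsum A h ↔ ∃ U : Multiset G, (∀ a ∈ U, a ∈ A) ∧ Multiset.card U = h ∧ U.sum = z := by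
  induction h generalizing z with
  | zero =>
    rw [nsum_zero, Finset.mem_singleton]
    constructor
    · rintro rfl
      exact ⟨0, by simp, by simp, by simp⟩
    · rintro ⟨U, -, hU, rfl⟩
      rw [Multiset.card_eq_zero] at hU
      simp [hU]
  | succ h ih =>
    rw [nsum_succ, Finset.mem_add]
    constructor
    · rintro ⟨u, hu, a, ha, rfl⟩
      obtain ⟨U, h1, h2, h3⟩ := (ih u).1 hu
      refine ⟨a ::ₘ U, ?_, by simp [h2], by simp [h3, add_comm]⟩
      intro b hb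
      rcases Multiset.mem_cons.1 hb with rfl | hb
      · exact ha
      · exact h1 b hb
    · rintro ⟨U, h1, h2, rfl⟩
      have h0 : 0 < Multiset.card U := by omega
      obtain ⟨a, ha⟩ := Multiset.card_pos_iff_exists_mem.1 h0
      obtain ⟨V, rfl⟩ := Multiset.exists_cons_of_mem ha
      refine ⟨V.sum, (ih _).2 ⟨V, fun b hb => h1 b (Multiset.mem_cons_of_mem hb), ?_, rfl⟩, a,
        h1 a (Multiset.mem_cons_self a V), by simp [add_comm]⟩
      simpa using h2

/-- `[0,s]`-sum-free means: no relation of different lengths -/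
theorem isSumFree_iff (s : ℕ) (A : Finset G) : IsSumFree s A ↔
    ∀ U V : Multiset G, (∀ a ∈ U, a ∈ A) → (∀ a ∈ V, a ∈ A) → Multiset.card U ≤ s →
      Multiset.card V ≤ s → Multiset.card U ≠ Multiset.card V → U.sum ≠ V.sum := by
  constructor
  · intro h U V hU hV hUs hVs hne he
    have h1 := h _ _ hUs hVs hne
    rw [Finset.disjoint_left] at h1
    exact h1 ((mem_nsum_iff A _ _).2 ⟨U, hU, rfl, rfl⟩)
      ((mem_nsum_iff A _ _).2 ⟨V, hV, rfl, he.symm⟩)
  · intro h p q hp hq hne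
    rw [Finset.disjoint_left]
    intro z hz hz'
    obtain ⟨U, h1, h2, h3⟩ := (mem_nsum_iff A _ _).1 hz
    obtain ⟨V, h4, h5, h6⟩ := (mem_nsum_iff A _ _).1 hz'
    exact h U V h1 h4 (by omega) (by omega) (by omega) (h3.trans h6.symm)

/-- elements of `jA - kA` -/
theorem mem_S_iff (A : Finset G) (j k : ℕ) (z : G) :
    z ∈ S A j k ↔ ∃ U V : Multiset G, (∀ a ∈ U, a ∈ A) ∧ (∀ a ∈ V, a ∈ A) ∧
      Multiset.card U = j ∧ Multiset.card V = k ∧ U.sum - V.sum = z := by
  unfold S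
  rw [Finset.mem_sub]
  constructor
  · rintro ⟨u, hu, v, hv, rfl⟩
    obtain ⟨U, h1, h2, rfl⟩ := (mem_nsum_iff A _ _).1 hu
    obtain ⟨V, h4, h5, rfl⟩ := (mem_nsum_iff A _ _).1 hv
    exact ⟨U, V, h1, h4, h2, h5, rfl⟩
  · rintro ⟨U, V, h1, h2, h3, h4, rfl⟩
    exact ⟨U.sum, (mem_nsum_iff A _ _).2 ⟨U, h1, h3, rfl⟩, V.sum,
      (mem_nsum_iff A _ _).2 ⟨V, h2, h4, rfl⟩, rfl⟩

end basic

/-! ### the number `T` -/

theorem T_even (t : ℕ) : T (2 * t) = t * (3 * t + 1) := by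
  have h : D (2 * t) = 3 * t ^ 2 + 3 * t + 1 := by
    unfold D
    have : 3 * (2 * t + 1) ^ 2 + 3 = 4 * (3 * t ^ 2 + 3 * t + 1) + 2 := by ring
    rw [this]; omega
  unfold T
  rw [h]
  have : 3 * t ^ 2 + 3 * t + 1 = t * (3 * t + 1) + (2 * t + 1) := by ring
  omega

theorem T_odd (t : ℕ) : T (2 * t + 1) = (t + 1) * (3 * t + 1) := by
  have h : D (2 * t + 1) = 3 * (t + 1) ^ 2 := by
    unfold D
    have : 3 * (2 * t + 1 + 1) ^ 2 + 3 = 4 * (3 * (t + 1) ^ 2) + 3 := by ring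
    rw [this]; omega
  unfold T
  rw [h]
  have : 3 * (t + 1) ^ 2 = (t + 1) * (3 * t + 1) + (2 * t + 1 + 1) := by ring
  omega

/-- `4 T ≤ 3 s² + 2 s` -/
theorem four_T_le (s : ℕ) : 4 * T s ≤ 3 * s ^ 2 + 2 * s := by
  rcases Nat.even_or_odd' s with ⟨t, rfl | rfl⟩
  · rw [T_even]; nlinarith
  · rw [T_odd]; nlinarith

/-- `T ≥ 4` for `s ≥ 2` -/
theorem four_le_T (s : ℕ) (hs : 2 ≤ s) : 4 ≤ T s := by
  rcases Nat.even_or_odd' s with ⟨t, rfl | rfl⟩
  · rw [T_even]; nlinarith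
  · rw [T_odd]; nlinarith

theorem T_le_sq (s : ℕ) (hs : 2 ≤ s) : T s ≤ s ^ 2 := by
  have := four_T_le s
  nlinarith

theorem T_add (s : ℕ) : T s + (s + 1) = D s := by
  unfold T
  have : s + 1 ≤ D s := by
    rcases Nat.even_or_odd' s with ⟨t, rfl | rfl⟩
    · have h : D (2 * t) = 3 * t ^ 2 + 3 * t + 1 := by
        unfold D
        have : 3 * (2 * t + 1) ^ 2 + 3 = 4 * (3 * t ^ 2 + 3 * t + 1) + 2 := by ring
        rw [this]; omega
      rw [h]; nlinarith
    · have h : D (2 * t + 1) = 3 * (t + 1) ^ 2 := by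
        unfold D
        have : 3 * (2 * t + 1 + 1) ^ 2 + 3 = 4 * (3 * (t + 1) ^ 2) + 3 := by ring
        rw [this]; omega
      rw [h]; nlinarith
  omega

/-- the weights of the index set: `∑ (j+k) = T` over the `s + 1` pairs
`(j,k) = (min i a, min (s-i) b)`, `a = ⌈s/2⌉`, `b = ⌊s/2⌋` -/
theorem sum_T (s : ℕ) :
    ∑ i ∈ Finset.range (s + 1), (min i ((s + 1) / 2) + min (s - i) (s / 2)) = T s := by
  have := sum_jk s
  unfold T
  omega

end Pool.Agent.Helper18.SV
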