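import Pool.Agent.Helper18.SV.Main

/-!
# Project SV (MP_cb0067_co): the conclusions
-/

open Finset
open scoped Pointwise

namespace Pool.Agent.Helper18.SV

open Pool.Agent.Helper95.SF

universe u

theorem adm_of_adm1 {s d c : ℕ} (h : Adm1 s d c) : Adm s d c := by
  obtain ⟨y, h1, h2⟩ := h
  exact ⟨1, y, h1, h2⟩

theorem le_mu_of_adm {s d c : ℕ} [NeZero d] (h : Adm s d c) : c ≤ mu (ZMod d) s := by
  obtain ⟨x, y, h1, h2⟩ := h
  rw [← h1]
  exact card_le_mu h2

/-- the lower bound -/
theorem lower {G : Type u} [AddCommGroup G] [Fintype G] [DecidableEq G] (s d c : ℕ)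
    (hd : d ∣ AddMonoid.exponent G) (h : Adm s d c) : Fintype.card G / d * c ≤ mu G s := by
  have hd0 : d ≠ 0 := by
    rintro rfl
    exact AddMonoid.exponent_ne_zero_of_finite (zero_dvd_iff.1 hd)
  have : NeZero d := ⟨hd0⟩
  exact card_div_mul s d c hd (le_mu_of_adm h)

/-- comparison of two quotients -/
theorem div_mul_le {n d c d' c' : ℕ} (hd : d ∣ n) (hd' : d' ∣ n) (h0 : 0 < d) (h0' : 0 < d')
    (h : c * d' ≤ c' * d) : n / d * c ≤ n / d' * c' := by
  obtain ⟨m, hm⟩ := hd
  obtain ⟨m', hm'⟩ := hd'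
  have e1 : n / d = m := by rw [hm]; exact Nat.mul_div_cancel_left _ h0
  have e2 : n / d' = m' := by rw [hm']; exact Nat.mul_div_cancel_left _ h0'
  rw [e1, e2]
  have h1 : (m * c) * (d * d') ≤ (m' * c') * (d * d') := by
    calc (m * c) * (d * d') = (d * m) * (c * d') := by ring
      _ ≤ (d * m) * (c' * d) := Nat.mul_le_mul_left _ h
      _ = (d' * m') * (c' * d) := by rw [← hm, hm']
      _ = (m' * c') * (d * d') := by ring
  exact Nat.le_of_mul_le_mul_right h1 (by positivity)

/-- the hypotheses of the project, at one universe -/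
structure AllGoals : Prop where
  tra : G_TRA.{u}
  fib : G_FIB.{u}
  fill : G_FILL.{u}
  rig : G_RIG.{u}
  ga : G_GA.{u}
  gb : G_GB.{u}
  gc : G_GC.{u}
  fin : G_FIN.{u}
  red : G_RED.{u}

/-- **dichotomy** -/
theorem dicho (hall : AllGoals.{u}) (G : Type u) [AddCommGroup G] [Fintype G] [DecidableEq G]
    (s : ℕ) (hs : 2 ≤ s) : T s * mu G s ≤ Fintype.card G ∨
      ∃ d c : ℕ, d ∣ AddMonoid.exponent G ∧ Adm1 s d c ∧ mu G s = Fintype.card G / d * c := by
  rcases Nat.lt_or_ge (Fintype.card G) (T s * mu G s) with h | h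
  · right
    obtain ⟨d, c, hd, hadm, hle⟩ := main_max hall.tra hall.fib hall.fill hall.rig hall.ga hall.gb
      hall.gc hall.fin hall.red s hs _ G rfl h
    refine ⟨d, c, hd, hadm, le_antisymm ?_ (lower s d c hd (adm_of_adm1 hadm))⟩
    have hd0 : d ≠ 0 := by
      rintro rfl
      exact AddMonoid.exponent_ne_zero_of_finite (zero_dvd_iff.1 hd)
    have hdn : d ∣ Fintype.card G := hd.trans AddGroup.exponent_dvd_card
    have h1 : mu G s * d ≤ (Fintype.card G / d * c) * d := by
      calc mu G s * d ≤ c * Fintype.card G := hle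
        _ = c * (Fintype.card G / d * d) := by rw [Nat.div_mul_cancel hdn]
        _ = _ := by ring
    exact Nat.le_of_mul_le_mul_right h1 (by omega)
  · exact Or.inl h

/-- from general progressions to progressions with first term `1` -/
theorem adm_red (hred : G_RED.{0}) (s d c : ℕ) (hd : 1 ≤ d) (hc : 1 ≤ c) (h : Adm s d c) :
    ∃ d' c' : ℕ, d' ∣ d ∧ Adm1 s d' c' ∧ c * d' ≤ c' * d := by
  have : NeZero d := ⟨by omega⟩
  obtain ⟨x, y, h1, h2⟩ := h
  obtain ⟨d', c', h3, h4, h5⟩ := hred (ZMod d) s (prog x y c) (by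
    rw [← Finset.card_pos]; omega) h2 ⟨x, y, c, rfl, h1⟩
  have he : AddMonoid.exponent (ZMod d) = d := ZMod.exponent d
  rw [he] at h3
  rw [h1, ZMod.card] at h5
  exact ⟨d', c', h3, h4, h5⟩

/-- **the formula** -/
theorem formula (hall : AllGoals.{u}) (hred : G_RED.{0}) (G : Type u) [AddCommGroup G]
    [Fintype G] [DecidableEq G] (s : ℕ) (hs : 2 ≤ s)
    (h : ∃ d c : ℕ, d ∣ AddMonoid.exponent G ∧ Adm s d c ∧ d ≤ T s * c) :
    IsGreatest {v : ℕ | ∃ d c : ℕ, d ∣ AddMonoid.exponent G ∧ Adm1 s d c ∧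
      v = Fintype.card G / d * c} (mu G s) := by
  obtain ⟨d, c, hd, hadm, hdT⟩ := h
  have hκ : AddMonoid.exponent G ≠ 0 := AddMonoid.exponent_ne_zero_of_finite
  have hd0 : d ≠ 0 := by
    rintro rfl
    exact hκ (zero_dvd_iff.1 hd)
  have hκn : AddMonoid.exponent G ∣ Fintype.card G := AddGroup.exponent_dvd_card
  have hc : 1 ≤ c := by
    rcases Nat.eq_zero_or_pos c with h0 | h0
    · rw [h0] at hdT; simp at hdT; exact absurd hdT hd0
    · exact h0
  refine ⟨?_, ?_⟩
  · rcases dicho hall G s hs with hT | h1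
    · obtain ⟨d', c', h2, h3, h4⟩ := adm_red hred s d c (by omega) hc hadm
      have hd' : d' ∣ AddMonoid.exponent G := h2.trans hd
      have hd'0 : d' ≠ 0 := by
        rintro rfl
        exact hκ (zero_dvd_iff.1 hd')
      refine ⟨d', c', hd', h3, le_antisymm ?_ (lower s d' c' hd' (adm_of_adm1 h3))⟩
      refine le_trans ?_ (div_mul_le (hd.trans hκn) (hd'.trans hκn) (by omega) (by omega) h4)
      have h5 : T s * mu G s ≤ T s * (Fintype.card G / d * c) := by
        calc T s * mu G s ≤ Fintype.card G := hT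
          _ = Fintype.card G / d * d := (Nat.div_mul_cancel (hd.trans hκn)).symm
          _ ≤ Fintype.card G / d * (T s * c) := Nat.mul_le_mul_left _ hdT
          _ = _ := by ring
      exact Nat.le_of_mul_le_mul_left h5 (by have := four_le_T s hs; omega)
    · exact h1
  · rintro v ⟨d', c', h1, h2, rfl⟩
    exact lower s d' c' h1 (adm_of_adm1 h2)

/-- **reduction to the cyclic group of order `κ`** -/
theorem cyclic_red (hall : AllGoals.{u}) (G : Type u) [AddCommGroup G] [Fintype G]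
    [DecidableEq G] (s : ℕ) (hs : 2 ≤ s)
    (h : AddMonoid.exponent G ≤ T s * mu (ZMod (AddMonoid.exponent G)) s) :
    mu G s = Fintype.card G / AddMonoid.exponent G * mu (ZMod (AddMonoid.exponent G)) s := by
  have hκ : AddMonoid.exponent G ≠ 0 := AddMonoid.exponent_ne_zero_of_finite
  have hκn : AddMonoid.exponent G ∣ Fintype.card G := AddGroup.exponent_dvd_card
  have : NeZero (AddMonoid.exponent G) := ⟨hκ⟩
  refine le_antisymm ?_ (card_div_mul s _ _ dvd_rfl le_rfl)
  rcases dicho hall G s hs with hT | ⟨d, c, hd, hadm, he⟩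
  · have h5 : T s * mu G s
        ≤ T s * (Fintype.card G / AddMonoid.exponent G * mu (ZMod (AddMonoid.exponent G)) s) := by
      calc T s * mu G s ≤ Fintype.card G := hT
        _ = Fintype.card G / AddMonoid.exponent G * AddMonoid.exponent G :=
          (Nat.div_mul_cancel hκn).symm
        _ ≤ Fintype.card G / AddMonoid.exponent G
            * (T s * mu (ZMod (AddMonoid.exponent G)) s) := Nat.mul_le_mul_left _ h
        _ = _ := by ring
    exact Nat.le_of_mul_le_mul_left h5 (by have := four_le_T s hs; omega)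
  · rw [he]
    have hd0 : d ≠ 0 := by
      rintro rfl
      exact hκ (zero_dvd_iff.1 hd)
    have h1 : AddMonoid.exponent G / d * c ≤ mu (ZMod (AddMonoid.exponent G)) s := by
      have h2 := lower (G := ZMod (AddMonoid.exponent G)) s d c
        (by rw [ZMod.exponent]; exact hd) (adm_of_adm1 hadm)
      rwa [ZMod.card] at h2
    obtain ⟨a, ha⟩ := hκn
    obtain ⟨b, hb⟩ := hd
    have e1 : Fintype.card G / AddMonoid.exponent G = a := by
      rw [ha]; exact Nat.mul_div_cancel_left _ (by omega)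
    have e2 : AddMonoid.exponent G / d = b := by
      rw [hb]; exact Nat.mul_div_cancel_left _ (by omega)
    have e3 : Fintype.card G / d = a * b := by
      rw [ha, hb, mul_assoc, Nat.mul_div_cancel_left _ (by omega), mul_comm]
    rw [e1, e3, mul_assoc]
    rw [e2] at h1
    exact Nat.mul_le_mul_left _ h1

/-- **explicit value** -/
theorem explicit (hall : AllGoals.{u}) (hred : G_RED.{0}) (hbnd : G_BND) (G : Type u)
    [AddCommGroup G] [Fintype G] [DecidableEq G] (s : ℕ) (hs : 2 ≤ s) (d₀ : ℕ)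
    (hd₀ : d₀ ∣ AddMonoid.exponent G)
    (hadm : Adm s d₀ ((d₀ - (s + 1)) / T s + 1)) (hT : d₀ ≤ T s * ((d₀ - (s + 1)) / T s + 1))
    (hmax : ∀ d, d ∣ AddMonoid.exponent G → s < d →
      ((d - (s + 1)) / T s + 1) * d₀ ≤ ((d₀ - (s + 1)) / T s + 1) * d) :
    mu G s = Fintype.card G / d₀ * ((d₀ - (s + 1)) / T s + 1) := by
  have hκ : AddMonoid.exponent G ≠ 0 := AddMonoid.exponent_ne_zero_of_finite
  have hκn : AddMonoid.exponent G ∣ Fintype.card G := AddGroup.exponent_dvd_card
  have hd₀0 : d₀ ≠ 0 := by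
    rintro rfl
    exact hκ (zero_dvd_iff.1 hd₀)
  refine le_antisymm ?_ (lower s d₀ _ hd₀ hadm)
  obtain ⟨⟨d, c, hd, h1, h2⟩, -⟩ := formula hall hred G s hs ⟨d₀, _, hd₀, hadm, hT⟩
  rw [h2]
  have hd0 : d ≠ 0 := by
    rintro rfl
    exact hκ (zero_dvd_iff.1 hd)
  rcases Nat.eq_zero_or_pos c with hc | hc
  · rw [hc]; simp
  apply div_mul_le (hd.trans hκn) (hd₀.trans hκn) (by omega) (by omega)
  have hTpos : 0 < T s := by have := four_le_T s hs; omega
  rcases hbnd s d c hs (by omega) hc (adm_of_adm1 h1) with ⟨m, hm1, hm2, hm3⟩ | h3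
  · have h4 := hmax m (hm1.trans hd) hm2
    have h5 : 1 * d₀ ≤ ((d₀ - (s + 1)) / T s + 1) * m :=
      le_trans (Nat.mul_le_mul_right _ (Nat.le_add_left 1 _)) h4
    calc c * d₀ = c * (1 * d₀) := by ring
      _ ≤ c * (((d₀ - (s + 1)) / T s + 1) * m) := Nat.mul_le_mul_left _ h5
      _ = ((d₀ - (s + 1)) / T s + 1) * (c * m) := by ring
      _ ≤ ((d₀ - (s + 1)) / T s + 1) * d := Nat.mul_le_mul_left _ hm3
  · have h4 : c ≤ (d - (s + 1)) / T s + 1 := by
      have h5 : c - 1 ≤ (d - (s + 1)) / T s := by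
        rw [Nat.le_div_iff_mul_le hTpos]
        have : (c - 1) * T s = T s * (c - 1) := mul_comm _ _
        omega
      omega
    exact le_trans (Nat.mul_le_mul_right _ h4) (hmax d hd (by omega))

end Pool.Agent.Helper18.SV
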