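import Pool.Agent.Helper18.SV.Defs

/-!
# Project SV (MP_cb0067_co): goals

THEOREM. `G` finite abelian, `n = |G|`, exponent `κ`, `s ≥ 2`, `T = ⌈3(s+1)²/4⌉ - (s+1)`. If
`A ⊆ G` is `[0,s]`-sum-free and `T |A| > n`, then there are `d ∣ κ` and a `[0,s]`-sum-free
arithmetic progression `P ⊆ ℤ_d` with `|A| / n ≤ |P| / d`.  So `μ(G,[0,s]) = n · max |P| / d`
whenever this maximum is `≥ 1 / T`.

Notation in the proofs: `a = ⌈s/2⌉`, `b = ⌊s/2⌋`, `a + b = s`, `a ≥ b ≥ 1`, `a < s`; the index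
set is the path of the `s + 1` pairs `(j_i, k_i) = (min i a, min (s-i) b)`, `i = 0, …, s`, whose
differences `j_i - k_i` are `-b, …, a` (all different) and `∑ (j_i + k_i) = T` (`sum_T` in
Defs).  For `i ≠ i'` one has `j_i + k_{i'} ≤ s`, `j_{i'} + k_i ≤ s`, and
`(j_i + k_{i'}) - (j_{i'} + k_i) = (j_i - k_i) - (j_{i'} - k_{i'}) ≠ 0`, so for a sum-free `A`
the `s + 1` sets `X_i = S A j_i k_i = j_i A - k_i A` are pairwise disjoint (`S_disjoint`).

Every goal is independent of the others: where a proof uses another goal take it as a hypothesis,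
`theorem t (h : G_FRAG.{u}) : G_SID.{u}`.
-/

open Finset
open scoped Pointwise

namespace Pool.Agent.Helper18.SV

open Pool.Agent.Helper95.SF

universe u

/-! ## Block 1: the isoperimetric trichotomy -/

/-- **FRAG** (2-atoms). `K` finite abelian, `B` nonempty, and some `X` with `|X| ≥ 2`,
`|X + B| ≤ |K| - 2` has `|X + B| < |X| + |B|`. Then there is a set `F ∋ 0` with the same
properties whose different translates meet in at most one point.

Proof. Call `X` admissible if `|X| ≥ 2` and `|X + B| + 2 ≤ |K|`. Let `κ` be the least value of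
`|X + B| - |X|` (`≥ 0`, as `B ≠ ∅`) over admissible `X` (so `κ < |B|`), and among the admissible
`X` with `|X + B| = |X| + κ` let `F` be one with `|F|` minimal; a translate of `F` has the same
properties, so we may take `0 ∈ F`.
(1) `|F| ≤ |K| - |F + B|`. Let `Y = K \ (F + B)`, `|Y| = |K| - |F + B| ≥ 2`. `Y - B ⊆ K \ F`
(if `y - b ∈ F` then `y ∈ F + B`), so `|-Y + B| = |Y - B| ≤ |K| - |F| ≤ |K| - 2`, `-Y` is
admissible, and `|-Y + B| - |Y| ≤ |K| - |F| - |K| + |F + B| = κ`, so `= κ`, and `|F| ≤ |Y|` by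
minimality of `|F|`.
(2) Let `F' = g + F ≠ F` and suppose `|F ∩ F'| ≥ 2`. `F ∩ F'` is admissible
(`(F ∩ F') + B ⊆ F + B`) and `|F ∩ F'| < |F|` (otherwise `F = F'`), so
`|(F ∩ F') + B| ≥ |F ∩ F'| + κ + 1`. By submodularity
(`Pool.Agent.Helper95.SF.card_union_add_inter_le`)
`|(F ∪ F') + B| ≤ 2 (|F| + κ) - |F ∩ F'| - κ - 1 = |F ∪ F'| + κ - 1`. So `F ∪ F'` is not
admissible: `|(F ∪ F') + B| ≥ |K| - 1`. But `|(F ∪ F') + B| ≤ 2 |F| - 2 + κ - 1
= |F| + |F + B| - 3 ≤ |K| - 3` by (1). Contradiction. -/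
def G_FRAG : Prop := ∀ (K : Type u) [AddCommGroup K] [Fintype K] [DecidableEq K]
    (B X : Finset K), B.Nonempty → 2 ≤ X.card → (X + B).card + 2 ≤ Fintype.card K →
    (X + B).card < X.card + B.card →
    ∃ F : Finset K, 0 ∈ F ∧ 2 ≤ F.card ∧ (F + B).card + 2 ≤ Fintype.card K ∧
      (F + B).card < F.card + B.card ∧
      ∀ g : K, g +ᵥ F ≠ F → (F ∩ (g +ᵥ F)).card ≤ 1

/-- **SUB**. A set `F ∋ 0` with a nontrivial stabilizer whose different translates meet in at most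
one point is a subgroup.

Proof. `Q = {g : g + F = F}` is a subgroup, `Q ⊆ F` as `0 ∈ F`, `F + Q = F`. If `v ∈ F \ Q` then
`v + F ≠ F`, and both `F` (by `F + Q = F`) and `v + F` (by `Q ⊆ F`) contain `v + Q`, which has at
least two elements. Contradiction. So `F = Q`. -/
def G_SUB : Prop := ∀ (K : Type u) [AddCommGroup K] [DecidableEq K] (F : Finset K), 0 ∈ F →
    (∀ g : K, g +ᵥ F ≠ F → (F ∩ (g +ᵥ F)).card ≤ 1) → (∃ g : K, g ≠ 0 ∧ g +ᵥ F = F) →
    ∃ Q : AddSubgroup K, (F : Set K) = Q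

/-- **SID**. Uses `G_FRAG`, `G_SUB`.

Proof. `ℓ = |F| ≥ 3`. `B` satisfies `|B| ≥ 2`, `|B + F| ≤ |K| - 2`, `|B + F| < |B| + |F|`, so
`G_FRAG` applied to the set `F` (in the place of `B`) gives `F' ∋ 0`, `k = |F'| ≥ 2`,
`|F' + F| ≤ |K| - 2`, `|F' + F| ≤ k + ℓ - 1`, and different translates of `F'` meet in at most
one point.
* `k = 2`, `F' = {0, g}`: `|F' + F| = |F ∪ (g + F)| ≥ 2 ℓ - 1 > ℓ + 1`. Contradiction.
* `k ≥ 3`: with three different elements `x, y, z` of `F'`,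
  `|F' + F| ≥ |(x+F) ∪ (y+F) ∪ (z+F)| ≥ 3 ℓ - 3`, so `2 ℓ - 2 ≤ k`.
  - If `g + F' ≠ F'` for all `g ≠ 0`, then in the same way (three elements of `F`)
    `|F' + F| ≥ 3 k - 3`, `2 k ≤ ℓ + 2`, so `4 ℓ - 4 ≤ ℓ + 2`, `ℓ ≤ 2`. Contradiction.
  - Otherwise `F'` is a subgroup `R` (`G_SUB`), `|R| = k`, `R ≠ K`. Let `n_1, …, n_t ≥ 1` be the
    numbers of elements of `F` in the `R`-cosets which meet `F`; `∑ n_i = ℓ`,
    `|R + F| = t |R| ≤ |R| + ℓ - 1`, and `t ≥ 2`, because `0 ∈ F` and `F ⊄ R` (`F` generates `K`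
    and `R ≠ K`). For `g ∈ R`, `g ≠ 0` there is at most one pair `(f, f') ∈ F × F` with
    `f - f' = g`, so `∑ n_i (n_i - 1) ≤ |R| - 1`. As `n (n-1) ≥ 2 (n-1)` for integers `n ≥ 1`
    (`(n-1)(n-2) ≥ 0`), `|R| - 1 ≥ 2 (ℓ - t) ≥ 2 ((t-1)|R| + 1 - t) = 2 (t-1)(|R|-1)`, so
    `t - 1 ≤ 1/2`. Contradiction. -/
def G_SID : Prop := ∀ (K : Type u) [AddCommGroup K] [Fintype K] [DecidableEq K]
    (F B : Finset K), 0 ∈ F → AddSubgroup.closure (F : Set K) = ⊤ → 3 ≤ F.card →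
    (∀ g : K, g ≠ 0 → (F ∩ (g +ᵥ F)).card ≤ 1) → 2 ≤ B.card →
    (F + B).card + 2 ≤ Fintype.card K → (F + B).card < F.card + B.card → False

/-- **OLS** (Olson's theorem, coset form). `B ∋ 0` generates `K`, `X ≠ ∅` is contained in a coset
of `K`: `X + B` is the whole coset, or `|X + B| ≥ |X| + |B| / 2`.

Proof. Translate so that `X ⊆ K`. If `X + B ≠ K`, `Pool.Agent.Helper95.SF.olson` gives `h, u ≥ 1`
with `|B| ≤ (u+1) h` and `|X + B| ≥ |X| + u h`, and `2 u h ≥ (u+1) h ≥ |B|`. -/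
def G_OLS : Prop := ∀ (G : Type u) [AddCommGroup G] [Fintype G] [DecidableEq G]
    (K : AddSubgroup G) (B : Finset G), 0 ∈ B → AddSubgroup.closure (B : Set G) = K →
    ∀ (X : Finset G) (g : G), X.Nonempty → (∀ x ∈ X, x - g ∈ K) →
    (X + B).card = Nat.card K ∨ 2 * X.card + B.card ≤ 2 * (X + B).card

/-- **NG**. Uses `G_OLS`. If `0 ∈ F` generates a proper subgroup `R`, `B ∋ 0` generates `K` and
`|F + B| < |F| + |B|`, then `B` is nearly `R`-periodic.

Proof. Let `B_1, …, B_t` be the nonempty intersections of `B` with the cosets of `R`; `t ≥ 2`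
since `0 ∈ B` and `B ⊄ R` (`B` generates `K ≠ R`). `F + B` is the disjoint union of the
`F + B_i`, each in one coset of `R`; `∑ (|F + B_i| - |B_i|) ≤ |F| - 1`. By `G_OLS` (for `F`, `R`,
`X = B_i`) each `i` has `|F + B_i| = |R|` or `2 |F + B_i| ≥ 2 |B_i| + |F|`; two `i`'s of the
second kind would give `∑ ≥ |F|`. So `|F + B_i| = |R|` for all `i` except at most one `i_0`, and
`t |R| - |B| = ∑ (|R| - |B_i|) = ∑ (|F + B_i| - |B_i|) + (|R| - |F + B_{i_0}|) ≤ |F| - 1 + |R|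
- |F| = |R| - 1` (as `|F + B_{i_0}| ≥ |F|`; without `i_0` it is `≤ |F| - 1 ≤ |R| - 1`).
`R ≠ ⊥` as `|F| ≥ 2`. -/
def G_NG : Prop := ∀ (K : Type u) [AddCommGroup K] [Fintype K] [DecidableEq K]
    (F B : Finset K), 0 ∈ F → 2 ≤ F.card → 0 ∈ B → AddSubgroup.closure (B : Set K) = ⊤ →
    AddSubgroup.closure (F : Set K) ≠ ⊤ → (F + B).card < F.card + B.card →
    ∃ M : AddSubgroup K, M ≠ ⊥ ∧ Near M B

/-- **PAIR**. If `r` generates `K` and `|B ∪ (r + B)| ≤ |B| + 1`, `B ≠ ∅, K`, then `B` is a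
progression.

Proof. The number of `b ∈ B` with `b + r ∉ B` is `|(r + B) \ B| ≤ 1`, and it is `≥ 1` since
otherwise `B + r ⊆ B`, so `B = K`. The number of `b ∈ B` with `b - r ∉ B` is
`|B \ (r + B)| = |(r + B) \ B| = 1` also; let `x` be that element. Let `c ≥ 1` be least with
`x + c r ∉ B`; then `x + (c-1) r` is the only `b ∈ B` with `b + r ∉ B`. Let `b ∈ B` and let
`j ≥ 0` be least with `b - (j+1) r ∉ B` (it exists, `B ≠ K` and `r` generates `K`); then
`b - j r = x`, so `b = x + j r` and `x, x + r, …, x + j r ∈ B`. If `j ≥ c` then `x + c r ∈ B`,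
contradiction. So `B = {x + i r : i < c}`; these are distinct, since `i r = i' r` with
`i < i' < c` would give `x + c r = x + (c - (i'-i)) r ∈ B`. -/
def G_PAIR : Prop := ∀ (K : Type u) [AddCommGroup K] [Fintype K] [DecidableEq K] (r : K)
    (B : Finset K), AddSubgroup.closure ({r} : Set K) = ⊤ → B.Nonempty → B ≠ Finset.univ →
    (({0, r} : Finset K) + B).card ≤ B.card + 1 → IsAP B

/-- **TRI**. Uses `G_FRAG`, `G_SUB`, `G_SID`, `G_NG`, `G_PAIR`.

Proof. Suppose the last alternative fails; `G_FRAG` gives `F`. If `F` does not generate `K`: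
`G_NG`. If `F` has a nontrivial stabilizer, `F` is a subgroup (`G_SUB`) and
`|F| ≤ |F + B| ≤ |K| - 2` so it does not generate `K`: `G_NG` again. Otherwise all `g ≠ 0` have
`|F ∩ (g + F)| ≤ 1`, and `F` generates `K`; `|F| ≥ 3` is impossible by `G_SID`, so `F = {0, r}`,
`r` generates `K` and `|F + B| ≤ |B| + 1`: `G_PAIR` (`B ≠ K` as `|F + B| ≤ |K| - 2`). -/
def G_TRI : Prop := ∀ (K : Type u) [AddCommGroup K] [Fintype K] [DecidableEq K]
    (B : Finset K), 0 ∈ B → 2 ≤ B.card → AddSubgroup.closure (B : Set K) = ⊤ →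
    IsAP B ∨ (∃ M : AddSubgroup K, M ≠ ⊥ ∧ Near M B) ∨
      ∀ X : Finset K, 2 ≤ X.card → (X + B).card + 2 ≤ Fintype.card K →
        X.card + B.card ≤ (X + B).card

/-- **TRA** (trichotomy in `G`). Uses `G_TRI`.

Proof. Let `x ∈ A`, `K = dif A`; `K` is also the subgroup generated by `A - x`, so the set
`B = A - x`, as a Finset of the group `↥K`, contains `0` and generates `↥K`; apply `G_TRI`. If
`B` is a progression then so is `A`. If `M ≤ ↥K` is as in the second alternative, take the image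
of `M` in `G` (`M.map K.subtype`): it has the same cardinality and the cosets of `M` which meet
`B` correspond to the cosets of the image which meet `A`. In the third case prove by induction on
`j + k` that `|S A j k| ≥ (j + k) |A|` when `j + k ≥ 1`, `|S A j k| + 2 ≤ |K|`: by
`|S A j k| = |S A k j|` (`S_card_comm`) assume `j ≥ 1`. If `j + k = 1`, `S A 1 0 = A`. Otherwise
`X = S A (j-1) k` has `|X| ≤ |X + A| = |S A j k| ≤ |K| - 2` (`S_succ`), so
`|X| ≥ (j - 1 + k) |A| ≥ 2` by induction, `X` lies in a coset of `K` (`S_coset`), and after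
translating into `K` the third alternative gives `|S A j k| = |X + A| ≥ |X| + |A|`. -/
def G_TRA : Prop := ∀ (G : Type u) [AddCommGroup G] [Fintype G] [DecidableEq G]
    (A : Finset G), 2 ≤ A.card →
    IsAP A ∨ (∃ M : AddSubgroup G, M ≠ ⊥ ∧ Near M A) ∨ Grow A

/-! ## Block 2: nearly periodic sum-free sets -/

/-- **FIB**. `f : G → H` surjective with fibres of `k` elements, `A ⊆ G` sum-free with
`|f(A)| k < |A| + k`. Then all relations in `f(A)` are constant.

Proof. For `x ∈ f(A)` let `A_x = A ∩ f⁻¹(x)`, `|A_x| ≤ k`. (0) If `x ≠ x'` in `f(A)` then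
`|A_x| + |A_x'| > k`, because `|A| ≤ (|f(A)| - 2) k + |A_x| + |A_x'|`. Hence for every
`g ∈ f⁻¹(x + x')` there are `u ∈ A_x`, `v ∈ A_x'` with `u + v = g` (the sets `A_x` and
`g - A_x'` lie in the fibre of `x`, which has `k` elements, so they meet), and for every
`g ∈ f⁻¹(x - x')` there are such `u`, `v` with `u - v = g`.
Let `U, V` be multisets of elements of `f(A)` of different cardinalities `≤ s` with equal sums.
If `U` and `V` are both empty their cardinalities are equal. Otherwise let `x` be a member of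
`U` or `V`; suppose some member `x'` of `U` or `V` is `≠ x`. Lift all other members of `U` and
`V` to elements of `A`; the two remaining ones can be lifted (by (0); they are both in `U`, both
in `V`, or one in each) in such a way that the sums of the lifts `Ũ`, `Ṽ` are equal. This
contradicts `isSumFree_iff`. -/
def G_FIB : Prop := ∀ (G H : Type u) [AddCommGroup G] [Fintype G] [DecidableEq G]
    [AddCommGroup H] [Fintype H] [DecidableEq H] (f : G →+ H) (_ : Function.Surjective f)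
    (k s : ℕ) (_ : k * Fintype.card H = Fintype.card G) (A : Finset G), IsSumFree s A →
    (A.image f).card * k < A.card + k → Rig s (A.image f)

/-- **FILL**. In the same situation let `s ≥ 2`, `x ∈ f(A)`, `s x = 0`. Then `|A_x| ≤ k / 2`, and
`x` is the only element of `f(A)` with `s x = 0`.

Proof. Let `u ∈ A_x`; `s u ∈ ker f`. If `2 |A_x| > k`, then as in FIB (0) every element of the
fibre of `2 x` is `v + w` with `v, w ∈ A_x`; take `g = 2 u - s u`, i.e.
`v + w = 2 u - s u`; then `v + w + (s-2) u = 0`, a relation of `s` elements and `0` elements,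
contradiction. If `x' ≠ x` also has `s x' = 0` then `2 |A_x'| ≤ k`, so
`|A_x| + |A_x'| ≤ k`, contradicting FIB (0). -/
def G_FILL : Prop := ∀ (G H : Type u) [AddCommGroup G] [Fintype G] [DecidableEq G]
    [AddCommGroup H] [Fintype H] [DecidableEq H] (f : G →+ H) (_ : Function.Surjective f)
    (k s : ℕ) (_ : k * Fintype.card H = Fintype.card G) (A : Finset G), 2 ≤ s → IsSumFree s A →
    (A.image f).card * k < A.card + k → ∀ x ∈ A.image f, s • x = 0 →
    2 * (A.filter (fun g => f g = x)).card ≤ k ∧ ∀ x' ∈ A.image f, s • x' = 0 → x' = x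

/-- **RIG** (elementary consequences of rigidity). Let `Rig s A`, `2 ≤ |A|`, `x ∈ A`, `e x = 0`
with `1 ≤ e ≤ s`. Then `e = s`, and the additive order of `x` is `s`.

Proof. If `e < s` let `x' ∈ A`, `x' ≠ x`: the multisets `{x^e, x'}` and `{x'}` have sizes
`e + 1 ≤ s` and `1`, and equal sums, but are not constant. So `e = s`; the additive order `o` of
`x` satisfies `1 ≤ o ≤ e ≤ s` and `o x = 0`, so `o = s`. -/
def G_RIG : Prop := ∀ (H : Type u) [AddCommGroup H] [DecidableEq H] (s : ℕ) (A : Finset H),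
    Rig s A → 2 ≤ A.card → ∀ x ∈ A, ∀ e : ℕ, 1 ≤ e → e ≤ s → e • x = 0 →
    e = s ∧ addOrderOf x = s

/-! ## Block 3: the three cases -/

/-- **GA** (generic case in `G`). `A` sum-free, `|A| ≥ 3`, `Grow A`: `T |A| ≤ n`, or
`|A| ≤ n / m` for a divisor `m > s` of the exponent.

Proof. Let `x ∈ A`, `K = dif A`, `m` the order of `x` in `G ⧸ K` (`m ∣ exponent`); all `a ∈ A`
are in `x + K`, `S A j k` lies in the coset `(j - k) x + K`. `n ≥ m |K|`.
(i) `m > s`: `|A| ≤ |K|`, so `|A| m ≤ n`.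
(ii) `m ≤ a`. Claim `|S A j k| ≤ |K| - 2` for all `j ≤ a`, `k ≤ b`. It is enough to do
`(a, b)` (cardinalities increase). Otherwise `U = S A a b` has `|U| ≥ |K| - 1`, and
`S A s (s-m) ⊆ K` (`m x ∈ K`) is `U + V`, `V = nsum A (s-a) - nsum A (s-m-b)`
(`s - a = b ≥ 1`, `s - m - b = a - m ≥ 0`), `|V| ≥ |A| ≥ 2`, so `U + V` is the whole coset `K`
(pigeonhole) and contains `0`: a relation of `s` and `s - m` elements, contradiction. By `Grow`
the `s + 1` disjoint sets `X_i` have `|X_i| ≥ (j_i + k_i) |A|`, `n ≥ T |A|`.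
(iii) `a < m ≤ s`. `S A 0 b` and `S A a (s-m)` are disjoint (`S_disjoint`: `0 + (s-m) ≤ s`,
`a + b = s`, `s - m ≠ s`) and contained in the same coset of `K` (`a - (s - m) = m - b`).
Neither can have `≥ |K| - 1` elements since the other one has `≥ |A| ≥ 3`. So by `Grow`
`|K| ≥ b |A| + (a + s - m) |A| = (2 s - m) |A|`, and `n ≥ m |K| ≥ m (2s - m) |A| ≥ T |A|`, because
`m (2 s - m) = s² - (s - m)² ≥ s² - (b-1)² ≥ T` (`s = 2t`: `4t² - (t-1)² = 3t² + 2t - 1 ≥
t (3t+1)`; `s = 2t+1`, `b = t`: `(2t+1)² - (t-1)² = 3t² + 6t ≥ (t+1)(3t+1) = 3t² + 4t + 1`,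
`t ≥ 1`). -/
def G_GA : Prop := ∀ (G : Type u) [AddCommGroup G] [Fintype G] [DecidableEq G] (s : ℕ)
    (A : Finset G), 2 ≤ s → IsSumFree s A → 3 ≤ A.card → Grow A →
    T s * A.card ≤ Fintype.card G ∨
      ∃ m : ℕ, s < m ∧ m ∣ AddMonoid.exponent G ∧ A.card * m ≤ Fintype.card G

/-- **GB** (generic case in the quotient). Uses `G_RIG`.

Proof. `c = |A|`, `K = dif A`, `m` the order of `x` in `H ⧸ K`; `m ∣ s` (`s x = 0`).
By `G_RIG` no `y ∈ A` has `e y = 0` with `1 ≤ e < s`, and only `y = x` has `s y = 0`. Hence: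
if `U`, `V` are multisets from `A` of sizes `p ≠ q ≤ s` and equal sums, then (by `Rig` they are
constant `= y`, `|p - q| y = 0`) `{p, q} = {0, s}` and `y = x`. (*)
(i) `m < s`; then `m ≤ s / 2 ≤ a`. As in GA (ii): `|S A j k| ≤ |K| - 2` for `j ≤ a`, `k ≤ b`
(otherwise `0 ∈ S A s (s-m)`, which contradicts (*) as `{s, s-m} ≠ {0, s}`, `0 < m < s`). The
sets `X_i` on the path are pairwise disjoint by (*), except that `X_s = S A a 0` and
`X_0 = S A 0 b` may have in common the one point `a x` (relation of `s` and `0` elements: all of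
them equal `x`). So `T c ≤ |H| + 1` by `Grow`, and
`T (2c - 1) = 2 T c - T ≤ 2 |H| + 2 - T ≤ 2 |H|` (`four_le_T`).
(ii) `m = s`. `S A a 0` and `S A 0 b` are in the same coset of `K` (`a + b = s`), have at most
one common point, and at least `c ≥ 3` elements each. So neither has `≥ |K| - 1` elements
(the other would have `≤ 2`); by `Grow` `a c + b c ≤ |K| + 1`. `|H| ≥ s |K| ≥ s (s c - 1)`. With
`4 T ≤ 3 s² + 2 s` (`four_T_le`): `8 s (s c - 1) - (3 s² + 2 s)(2 c - 1)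
= (s - 2)(2 s c + 3 s) ≥ 0`, so `T (2 c - 1) ≤ 2 s (s c - 1) ≤ 2 |H|`. -/
def G_GB : Prop := ∀ (H : Type u) [AddCommGroup H] [Fintype H] [DecidableEq H] (s : ℕ)
    (A : Finset H), 2 ≤ s → Rig s A → ∀ x ∈ A, addOrderOf x = s →
    (∀ x' ∈ A, s • x' = 0 → x' = x) → 3 ≤ A.card → Grow A →
    T s * (2 * A.card - 1) ≤ 2 * Fintype.card H

/-- **GC** (progressions in the quotient). Uses `G_RIG`.

Proof. `A = {x_1 + i y : i < c}`, `x = x_1 + i_0 y`. If `0 < i_0 < c - 1`, the multiset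
`{x - y, x + y, x^(s-2)}` has sum `s x = 0`, a relation of sizes `s` and `0` which is not constant:
contradiction. So, replacing `y` by `-y` if necessary, `A = {x + i y : 0 ≤ i < c}`, these `c`
elements are distinct. (*) as in GB. Claim: the elements `j x + i y`, `1 ≤ j ≤ s`,
`0 ≤ i ≤ s (c-1)`, are distinct; this gives the result. Suppose
`j x + i y = j' x + i' y` with `(j,i) ≠ (j',i')`, `e = i - i' ≥ 0`, `e y = (j' - j) x`. If `e = 0`,
`(j' - j) x = 0` with `|j' - j| < s`, so `j = j'` (`x` has order `s`), contradiction. Let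
`1 ≤ e ≤ s (c-1)`, `j'' ∈ [1, s]`, `j'' ≡ j' - j` mod `s`, so `e y = j'' x`. Write `e` as a sum of
`s` integers `e_1, …, e_s ∈ [0, c-1]`: `U = {x + e_r y}` has sum `s x + e y = e y = j'' x`, size
`s`. If `j'' < s`, `V = {x^j''}` is a relation with `{s, j''} ≠ {0, s}`, contradiction to (*). If
`j'' = s`, `U` and `∅` are a relation (`s x = 0`), so by (*) all members of `U` equal `x`, so all
`e_r = 0` (distinctness), contradiction with `e ≥ 1`. -/
def G_GC : Prop := ∀ (H : Type u) [AddCommGroup H] [Fintype H] [DecidableEq H] (s : ℕ)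
    (A : Finset H), 2 ≤ s → Rig s A → ∀ x ∈ A, addOrderOf x = s →
    (∀ x' ∈ A, s • x' = 0 → x' = x) → 2 ≤ A.card → IsAP A →
    s * (s * (A.card - 1) + 1) ≤ Fintype.card H

/-- **FIN** (the exceptional fibre). Uses `G_OLS`.

Proof. `c = |f(A)|`, `N = |H|`, `n = k N`, `A_x` the fibre of `A` over `x`,
`|A| ≤ (c-1) k + |A_x|`. Suppose `T |A| > n`. Then `T |A_x| > k (N - T (c-1)) ≥
k ((s² - T)(c-1) + s) ≥ k (s² - T + s)` (`T ≤ s²`, `c ≥ 2`). As `2 |A_x| ≤ k` this is impossible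
for `s = 2` (`T = 4`: `4 |A_x| > 2 k`) and `s = 3` (`T = 8`: `8 |A_x| > 4 k`). For `s = 4`
(`T = 14`) it says `7 |A_x| > 3 k`; for all `s ≥ 2` it implies `3 |A_x| > k`
(`3 (s² + s) ≥ 4 T`). Let `s ≥ 4`, `x' ∈ A_x`, `B = A_x - x' ∋ 0`, `M = ker f`, `|M| = k`,
`M' ≤ M` the subgroup generated by `B`. `|M'| ≥ |B| > k / 3`, so `M' = M` or `[M : M'] = 2`.
If `M' = M`: by `G_OLS` (`X = j B`) `|j B| ≥ min (k, (j+1)|B|/2)`, so `s B = M` (`s ≥ 5`:
`3 |B| > k`; `s = 4`: `5/2 · |B| > k`); then `s A_x = s x' + M = M ∋ 0` (`f (s x') = s x = 0`),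
which contradicts sum-freeness (`s` and `0` elements).
If `[M : M'] = 2`: `|B| > |M'| / 2`, so `B + B = M'` and `s B = M'`. `0 ∉ s A_x = s x' + M'`, so
`s x' ∉ M'`, while `s x' ∈ M`. The order `o` of `x'` is a multiple of `s` (the order of
`x = f x'`), `o = s e`, `e (s x') = 0`, `e` is even since `s x' ∉ M'`, `[M : M'] = 2`. So
`2 s ∣ o ∣ exponent`. And `2 s |A| ≤ 2 s ((c-1) k + k/2) = s (2c - 1) k ≤ (s² (c-1) + s) k ≤ n`.
-/
def G_FIN : Prop := ∀ (G H : Type u) [AddCommGroup G] [Fintype G] [DecidableEq G]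
    [AddCommGroup H] [Fintype H] [DecidableEq H] (f : G →+ H) (_ : Function.Surjective f)
    (k s : ℕ) (_ : k * Fintype.card H = Fintype.card G) (A : Finset G), 2 ≤ s → IsSumFree s A →
    ∀ x ∈ A.image f, addOrderOf x = s → 2 ≤ (A.image f).card →
    2 * (A.filter (fun g => f g = x)).card ≤ k →
    s * (s * ((A.image f).card - 1) + 1) ≤ Fintype.card H →
    T s * A.card ≤ Fintype.card G ∨
      (2 * s ∣ AddMonoid.exponent G ∧ A.card * (2 * s) ≤ Fintype.card G)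

/-- **RED** (progressions in `G` against progressions in `ℤ_d` with first term `1`).

Proof. Strong induction on `|G|`: let `A = prog x y c`, `|A| = c ≥ 1`.
(1) If `L = ⟨x, y⟩ ≠ G`, `A` is a progression in the smaller group `↥L` (sum-free there), whose
exponent divides that of `G`; `|A| d ≤ |P| |L| ≤ |P| |G|`.
(2) If `⟨x⟩ = G`: `G` is cyclic, `d = exponent = |G|`, the isomorphism `G ≃ ℤ_d` with `x ↦ 1`
carries `A` to `prog 1 y' c`, `|A| d = |P| |G|`.
(3) Otherwise `G = ⟨x, y⟩`, `⟨x⟩ ≠ G`; `G ⧸ ⟨x⟩ ≠ 0` is cyclic, generated by the image of `y`; let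
`p` be a prime divisor of its order and `L' = ⟨x, p y⟩`. `L' ≠ G` (its image in `G ⧸ ⟨x⟩` is
`p (G ⧸ ⟨x⟩)`), `G ⧸ L'` is generated by the image of `y` which is killed by `p`, so
`[G : L'] = p`. `A' = {x + i (p y) : 0 ≤ i < c'}`, `c' = ⌈c/p⌉`, are elements of `A` (`i p < c`),
distinct, so a sum-free progression of `L'`. By induction `c' d ≤ |P| |L'|`, so
`c d ≤ p c' d ≤ |P| p |L'| = |P| |G|`. (For a subset of a subgroup, sum-free in `↥L` follows from
sum-free in `G` by `isSumFree_iff` and `Multiset.map`.) -/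
def G_RED : Prop := ∀ (G : Type u) [AddCommGroup G] [Fintype G] [DecidableEq G] (s : ℕ)
    (A : Finset G), A.Nonempty → IsSumFree s A → IsAP A →
    ∃ d c : ℕ, d ∣ AddMonoid.exponent G ∧ Adm1 s d c ∧
      A.card * d ≤ c * Fintype.card G

/-! ## Block 4: progressions in `ℤ_d` -/

/-- **CRIT**. For `c ≥ 1`: `{x + i y : i < c}` is `[0,s]`-sum-free iff `e x ≠ i y` for
all `1 ≤ e ≤ s`, `-s (c-1) ≤ i ≤ (s-e)(c-1)`.

Proof. `nsum (prog x y c) h = {h x + i y : 0 ≤ i ≤ h (c-1)}` (induction on `h`). A common element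
of `nsum _ q` and `nsum _ (q + e)`, `q + e ≤ s`, `e ≥ 1`, is an equality
`(q+e) x + i' y = q x + i'' y`, i.e. `e x = (i'' - i') y`, with
`-(q+e)(c-1) ≤ i'' - i' ≤ q (c-1)`, and each integer in this range occurs; these ranges increase
with `q`, so the largest one is for `q + e = s`. -/
def G_CRIT : Prop := ∀ (G : Type u) [AddCommGroup G] [DecidableEq G] (s c : ℕ) (x y : G),
    1 ≤ c → (IsSumFree s (prog x y c) ↔
      ∀ e : ℕ, 1 ≤ e → e ≤ s → ∀ i : ℤ, -((s : ℤ) * (c - 1)) ≤ i →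
        i ≤ ((s : ℤ) - e) * (c - 1) → e • x ≠ i • y)

/-- **BND**. Uses `G_CRIT`. A sum-free progression of `c ≥ 1` terms in `ℤ_d`: `c ≤ d / m` for a
divisor `m > s` of `d`, or `d ≥ T (c-1) + s + 1`.

Proof. `Y = ⟨y⟩`, `N = |Y| ≥ c` (`x, x+y, …` distinct), `m` the order of `x` in `ℤ_d ⧸ Y`,
`L = ⟨x, y⟩`, `|L| = m N ∣ d`. If `m > s`: `m ∣ d`, `c m ≤ N m ≤ d`. Let `m ≤ s`. By `G_CRIT`
with `e = m` the elements `i y`, `-s (c-1) ≤ i ≤ (s-m)(c-1)` are not all of `Y ∋ m x`, so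
`(2s - m)(c-1) + 1 < N`, i.e. `N ≥ (2s - m)(c-1) + 2`. If `m > a`, then
`d ≥ m N ≥ m (2s-m)(c-1) + 2m ≥ T (c-1) + s + 1` (`m (2s - m) ≥ T` as in GA (iii),
`2m ≥ 2a + 2 ≥ s + 2`). If `m ≤ a`: for `j + k ≤ s ≤ 2 s - m` the set
`S A j k = (j - k) x + {i y : -k (c-1) ≤ i ≤ j (c-1)}` has exactly `(j+k)(c-1) + 1` elements; the
`s + 1` disjoint sets `X_i` of the path give `d ≥ ∑ ((j_i + k_i)(c-1) + 1) = T (c-1) + s + 1`. -/
def G_BND : Prop := ∀ (s d c : ℕ), 2 ≤ s → 1 ≤ d → 1 ≤ c → Adm s d c →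
    (∃ m : ℕ, m ∣ d ∧ s < m ∧ c * m ≤ d) ∨ T s * (c - 1) + (s + 1) ≤ d

/-- **EVN**. Uses `G_CRIT`. `s = 2t`, `T = t (3t+1)` (`T_even`): for `t k ≤ r ≤ (t+1) k` there is
an interval of `c` terms in `ℤ_d`, `d = T (c-1) + s + 1 + r`.

Proof. `y = 1`, `x = u = (3t-1)(c-1) + 2 + k`. The `c` terms are distinct (`d ≥ c`). `G_CRIT`: for
`1 ≤ e ≤ 2t` no integer `i ∈ [-2t (c-1), (2t-e)(c-1)]` is `≡ e u` mod `d`. If `e ≤ t`:
`(2t-e)(c-1) < e u` since `e (3t-1) ≥ 2t - e` (`3 t e ≥ 2 t`) and `e (2+k) > 0`; and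
`e u + 2t (c-1) ≤ t u + 2t (c-1) = t (3t+1)(c-1) + 2t + t k < d`. So `i ∈ (e u - d, e u)`, not
congruent. If `t + 1 ≤ e ≤ 2t`: `i + d ≤ (2t-e)(c-1) + d < e u`: for `e = t+1`,
`(t-1)(c-1) + t (3t+1)(c-1) + 2t + 1 + r = (3t²+2t-1)(c-1) + 2t + 1 + r <
(t+1) u = (3t²+2t-1)(c-1) + 2t + 2 + (t+1) k`; increasing `e` decreases the left side and increases
the right side. And `e u + 2t (c-1) ≤ 2t u + 2t (c-1) = 6t² (c-1) + 4t + 2 t k < 2 d`. So
`i ∈ (e u - 2 d, e u - d)`, not congruent. -/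
def G_EVN : Prop := ∀ (t c k r : ℕ), 1 ≤ t → 1 ≤ c → t * k ≤ r → r ≤ (t + 1) * k →
    Adm (2 * t) (T (2 * t) * (c - 1) + (2 * t + 1) + r) c

/-- **ODD**. Uses `G_CRIT`. `s = 2t+1`: in `ℤ_d`, `d = (t+1) N`, `N` prime to `t+1`,
`N ≥ (3t+1)(c-1) + 2`, there is a sum-free progression with `c` terms.

Proof. `y = t + 1` (order `N`), `x ≡ 1` mod `t+1`, `x ≡ t (c-1) + 1` mod `N` (Chinese remainder
theorem). The `c ≤ N` terms are distinct. `G_CRIT`: if `e x = i y` in `ℤ_d` then mod `t+1`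
`e ≡ 0`, so `e = t + 1` (`e ≤ 2t+1`); then mod `N`, dividing by `t+1`, `i ≡ x ≡ t (c-1) + 1`
mod `N`. But for `-(2t+1)(c-1) ≤ i ≤ t (c-1)` we have `1 ≤ t (c-1) + 1 - i ≤
(3t+1)(c-1) + 1 < N`, so `i ≢ t (c-1) + 1` mod `N`. -/
def G_ODD : Prop := ∀ (t c N : ℕ), 1 ≤ t → 1 ≤ c → Nat.Coprime (t + 1) N →
    (3 * t + 1) * (c - 1) + 2 ≤ N → Adm (2 * t + 1) ((t + 1) * N) c

end Pool.Agent.Helper18.SV
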