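import Pool.Agent.Helper18.SV.Goals

/-!
# Project SV (MP_cb0067_co): the main induction
-/

open Finset
open scoped Pointwise

namespace Pool.Agent.Helper18.SV

open Pool.Agent.Helper95.SF

universe u

theorem image_nsum {G H : Type u} [AddCommGroup G] [DecidableEq G] [AddCommGroup H]
    [DecidableEq H] (f : G →+ H) (A : Finset G) (h : ℕ) :
    nsum (A.image f) h = (nsum A h).image f := by
  induction h with
  | zero => simp [nsum_zero]
  | succ h ih => rw [nsum_succ, nsum_succ, ih, Finset.image_add]

/-- preimages of sum-free sets are sum-free -/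
theorem isSumFree_preimage {G H : Type u} [AddCommGroup G] [DecidableEq G] [AddCommGroup H]
    [DecidableEq H] (f : G →+ H) (s : ℕ) (A : Finset G) (B : Finset H)
    (hAB : ∀ a ∈ A, f a ∈ B) (hB : IsSumFree s B) : IsSumFree s A := by
  rw [isSumFree_iff] at hB ⊢
  intro U V hU hV hUs hVs hne he
  refine hB (U.map f) (V.map f) ?_ ?_ (by simpa using hUs) (by simpa using hVs)
    (by simpa using hne) ?_
  · intro b hb
    obtain ⟨a, ha, rfl⟩ := Multiset.mem_map.1 hb
    exact hAB a (hU a ha)
  · intro b hb
    obtain ⟨a, ha, rfl⟩ := Multiset.mem_map.1 hb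
    exact hAB a (hV a ha)
  · rw [← map_multiset_sum, ← map_multiset_sum, he]

section fib

variable {G H : Type u} [AddCommGroup G] [Fintype G] [DecidableEq G]
    [AddCommGroup H] [Fintype H] [DecidableEq H] (f : G →+ H)

/-- all fibres have `k` elements -/
theorem card_fib (hf : Function.Surjective f) (k : ℕ) (hk : k * Fintype.card H = Fintype.card G)
    (x : H) : (Finset.univ.filter (fun g => f g = x)).card = k := by
  have h1 : Fintype.card G = ∑ c : H, (Finset.univ.filter (fun g => f g = c)).card := by
    rw [← Finset.card_univ]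
    exact Finset.card_eq_sum_card_fiberwise (fun x _ => Finset.mem_univ _)
  have h2 : ∀ c : H, (Finset.univ.filter (fun g => f g = c)).card
      = (Finset.univ.filter (fun g => f g = x)).card := fun c =>
    AddMonoidHom.card_fiber_eq_of_mem_range f (hf c) (hf x)
  rw [Finset.sum_congr rfl (fun c _ => h2 c), Finset.sum_const, Finset.card_univ,
    smul_eq_mul, ← hk, mul_comm] at h1
  exact (Nat.eq_of_mul_eq_mul_left Fintype.card_pos h1).symm

theorem card_preimage (hf : Function.Surjective f) (k : ℕ)
    (hk : k * Fintype.card H = Fintype.card G) (B : Finset H) :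
    (Finset.univ.filter (fun g => f g ∈ B)).card = B.card * k := by
  have h1 : (Finset.univ.filter (fun g => f g ∈ B)).card
      = ∑ b ∈ B, (Finset.univ.filter (fun g => f g = b)).card := by
    rw [Finset.card_eq_sum_card_fiberwise (f := f) (t := B) (by
      intro x hx
      simpa using hx)]
    apply Finset.sum_congr rfl
    intro b hb
    congr 1
    ext g
    simp only [Finset.mem_filter, Finset.mem_univ, true_and]
    constructor
    · exact fun h => h.2
    · intro h
      exact ⟨h ▸ hb, h⟩
  rw [h1, Finset.sum_congr rfl (fun b _ => card_fib f hf k hk b), Finset.sum_const, smul_eq_mul]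

theorem mu_mul_le (hf : Function.Surjective f) (k : ℕ)
    (hk : k * Fintype.card H = Fintype.card G) (s : ℕ) : mu H s * k ≤ mu G s := by
  obtain ⟨B, hB, hBc⟩ := (mu_isGreatest (G := H) s).1
  have h1 : IsSumFree s (Finset.univ.filter (fun g => f g ∈ B)) :=
    isSumFree_preimage f s _ B (by intro a ha; simpa using ha) hB
  have h2 := card_le_mu h1
  rw [card_preimage f hf k hk] at h2
  rwa [← hBc]

/-- size of `A` against its image and one fibre -/
theorem card_le_of_fibre (hf : Function.Surjective f) (k : ℕ)
    (hk : k * Fintype.card H = Fintype.card G) (A : Finset G) (x : H) (hx : x ∈ A.image f) :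
    A.card ≤ ((A.image f).card - 1) * k + (A.filter (fun g => f g = x)).card := by
  classical
  have h1 : A.card = ∑ b ∈ A.image f, (A.filter (fun g => f g = b)).card :=
    Finset.card_eq_sum_card_fiberwise (fun a ha => Finset.mem_image_of_mem f ha)
  rw [h1, ← Finset.sum_erase_add _ _ hx]
  have h2 : ∑ b ∈ (A.image f).erase x, (A.filter (fun g => f g = b)).card
      ≤ ∑ b ∈ (A.image f).erase x, k := by
    apply Finset.sum_le_sum
    intro b _
    calc (A.filter (fun g => f g = b)).card
        ≤ (Finset.univ.filter (fun g => f g = b)).card :=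
          Finset.card_le_card (Finset.filter_subset_filter _ (Finset.subset_univ _))
      _ = k := card_fib f hf k hk b
  rw [Finset.sum_const, Finset.card_erase_of_mem hx, smul_eq_mul] at h2
  omega

end fib

/-- nearly periodic homomorphic image of size `N` -/
def NearHom (G : Type u) [AddCommGroup G] [Fintype G] (A : Finset G) (N : ℕ) : Prop :=
  ∃ (H : Type u) (_ : AddCommGroup H) (_ : Fintype H) (_ : DecidableEq H) (f : G →+ H) (k : ℕ),
    Function.Surjective f ∧ k * Fintype.card H = Fintype.card G ∧ Fintype.card H = N ∧
    2 ≤ k ∧ 2 ≤ (A.image f).card ∧ (A.image f).card * k < A.card + k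

theorem nc_eq {G : Type u} [AddCommGroup G] (M : AddSubgroup G) (A : Finset G)
    [DecidableEq (G ⧸ M)] : nc M A = (A.image (QuotientAddGroup.mk' M)).card := by
  unfold nc
  rw [← Set.ncard_coe_finset, Finset.coe_image]
  rfl

theorem two_le_card_of_ne_bot {G : Type u} [AddCommGroup G] [Finite G] (M : AddSubgroup G)
    (hM : M ≠ ⊥) : 2 ≤ Nat.card M := by
  have h1 : Nat.card M ≠ 1 := fun h => hM (AddSubgroup.card_eq_one.1 h)
  have h2 : 0 < Nat.card M := Nat.card_pos
  omega

/-- composition: `f(A)` nearly `M`-periodic in `H` -/
theorem nearHom_comp {G : Type u} [AddCommGroup G] [Fintype G] [DecidableEq G]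
    {H : Type u} [AddCommGroup H] [Fintype H] [DecidableEq H] (f : G →+ H)
    (hf : Function.Surjective f) (k : ℕ) (hk : k * Fintype.card H = Fintype.card G)
    (hk1 : 1 ≤ k) (A : Finset G)
    (hA : (A.image f).card * k < A.card + k) (M : AddSubgroup H) (hM : M ≠ ⊥)
    (hN : Near M (A.image f)) : ∃ N, N < Fintype.card H ∧ NearHom G A N := by
  classical
  have hfin : Fintype (H ⧸ M) := Fintype.ofFinite _
  have hMc := two_le_card_of_ne_bot M hM
  have hcard : Nat.card M * Fintype.card (H ⧸ M) = Fintype.card H := by
    rw [← Nat.card_eq_fintype_card, ← Nat.card_eq_fintype_card,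
      AddSubgroup.card_eq_card_quotient_mul_card_addSubgroup M, mul_comm]
  have hpos : 0 < Fintype.card (H ⧸ M) := Fintype.card_pos
  obtain ⟨h1, h2⟩ := hN
  rw [nc_eq] at h1 h2
  have himg : A.image ((QuotientAddGroup.mk' M).comp f)
      = (A.image f).image (QuotientAddGroup.mk' M) := by
    rw [Finset.image_image]; rfl
  refine ⟨Fintype.card (H ⧸ M), by nlinarith, H ⧸ M, inferInstance, hfin, inferInstance,
    (QuotientAddGroup.mk' M).comp f, k * Nat.card M,
    (QuotientAddGroup.mk'_surjective M).comp hf, ?_, rfl, ?_, ?_, ?_⟩
  · rw [mul_assoc, hcard, hk]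
  · nlinarith
  · rw [himg]; exact h1
  · rw [himg]
    have h3 : ((A.image f).image (QuotientAddGroup.mk' M)).card * Nat.card M + 1
        ≤ (A.image f).card + Nat.card M := h2
    have h4 : (((A.image f).image (QuotientAddGroup.mk' M)).card * Nat.card M + 1) * k
        ≤ ((A.image f).card + Nat.card M) * k := Nat.mul_le_mul_right _ h3
    have e1 : ((A.image f).card + Nat.card M) * k
      = (A.image f).card * k + k * Nat.card M := by ring
    have e2 : (((A.image f).image (QuotientAddGroup.mk' M)).card * Nat.card M + 1) * k
      = ((A.image f).image (QuotientAddGroup.mk' M)).card * (k * Nat.card M) + k := by ring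
    rw [e1, e2] at h4
    omega

/-- sets of one or two elements are progressions -/
theorem isAP_of_card {G : Type u} [AddCommGroup G] [DecidableEq G] (A : Finset G)
    (h1 : 1 ≤ A.card) (h2 : A.card ≤ 2) : IsAP A := by
  have h12 : A.card = 1 ∨ A.card = 2 := by omega
  rcases h12 with h | h
  · obtain ⟨x, hx⟩ := Finset.card_eq_one.1 h
    exact ⟨x, 0, 1, by rw [hx]; simp [prog], h⟩
  · obtain ⟨x, y, hxy, he⟩ := Finset.card_eq_two.1 h
    refine ⟨x, y - x, 2, ?_, h⟩
    rw [he]
    ext z
    simp only [prog, Finset.mem_insert, Finset.mem_singleton, Finset.mem_image,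
      Finset.mem_range]
    constructor
    · rintro (rfl | rfl)
      · exact ⟨0, by omega, by simp⟩
      · exact ⟨1, by omega, by simp⟩
    · rintro ⟨i, hi, rfl⟩
      have : i = 0 ∨ i = 1 := by omega
      rcases this with rfl | rfl
      · left; simp
      · right; simp

/-- one element in `ℤ_m`, `m > s` -/
theorem adm1_one (s m : ℕ) (hm : s < m) : Adm1 s m 1 := by
  refine ⟨0, by simp [prog], ?_⟩
  have hp : prog (1 : ZMod m) 0 1 = {1} := by simp [prog]
  rw [hp, isSumFree_iff]
  intro U V hU hV hUs hVs hne he
  have hU1 : U = Multiset.replicate (Multiset.card U) 1 :=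
    Multiset.eq_replicate.2 ⟨rfl, fun b hb => by simpa using hU b hb⟩
  have hV1 : V = Multiset.replicate (Multiset.card V) 1 :=
    Multiset.eq_replicate.2 ⟨rfl, fun b hb => by simpa using hV b hb⟩
  rw [hU1, hV1, Multiset.sum_replicate, Multiset.sum_replicate] at he
  simp only [nsmul_eq_mul, mul_one] at he
  rw [ZMod.natCast_eq_natCast_iff] at he
  exact hne (Nat.ModEq.eq_of_lt_of_lt he (by omega) (by omega))

theorem exponent_dvd_of_surj {G H : Type u} [AddCommGroup G] [AddCommGroup H] (f : G →+ H)
    (hf : Function.Surjective f) : AddMonoid.exponent H ∣ AddMonoid.exponent G :=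
  AddMonoid.exponent_dvd_of_forall_nsmul_eq_zero fun h => by
    obtain ⟨g, rfl⟩ := hf h
    rw [← map_nsmul, AddMonoid.exponent_nsmul_eq_zero, map_zero]

/-- **Main theorem**, for a maximum set -/
theorem main_max (hTRA : G_TRA.{u}) (hFIB : G_FIB.{u}) (hFILL : G_FILL.{u}) (hRIG : G_RIG.{u})
    (hGA : G_GA.{u}) (hGB : G_GB.{u}) (hGC : G_GC.{u}) (hFIN : G_FIN.{u}) (hRED : G_RED.{u})
    (s : ℕ) (hs : 2 ≤ s) (n : ℕ) :
    ∀ (G : Type u) [AddCommGroup G] [Fintype G] [DecidableEq G], Fintype.card G = n →
      Fintype.card G < T s * mu G s →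
      ∃ d c : ℕ, d ∣ AddMonoid.exponent G ∧ Adm1 s d c ∧ mu G s * d ≤ c * Fintype.card G := by
  induction n using Nat.strong_induction_on with
  | _ n IH =>
  intro G _ _ _ hn hT
  classical
  obtain ⟨A, hA, hAc⟩ := (mu_isGreatest (G := G) s).1
  rw [← hAc] at hT ⊢
  have hpos : 0 < A.card := by
    rcases Nat.eq_zero_or_pos A.card with h | h
    · rw [h] at hT; simp at hT
    · exact h
  have hne : A.Nonempty := Finset.card_pos.1 hpos
  -- one element, or a progression
  by_cases hAP : IsAP A
  · exact hRED G s A hne hA hAP
  have h2 : 2 < A.card := by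
    by_contra hcon
    exact hAP (isAP_of_card A (by omega) (by omega))
  by_cases hex : ∃ N, NearHom G A N
  · -- a minimal nearly periodic image
    have hmin := Nat.find_spec hex
    have hmin' : ∀ N', N' < Nat.find hex → ¬ NearHom G A N' := fun N' h => Nat.find_min hex h
    generalize Nat.find hex = N at hmin hmin'
    obtain ⟨H, i1, i2, i3, f, k, hf, hk, hN, hk2, hc2, hnear⟩ := hmin
    have hrig : Rig s (A.image f) := hFIB G H f hf k s hk A hA hnear
    have hHpos : 0 < Fintype.card H := Fintype.card_pos
    by_cases hsf : IsSumFree s (A.image f)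
    · -- periodic
      have h3 : (A.image f).card * k ≤ A.card := by
        have h4 : IsSumFree s (Finset.univ.filter (fun g => f g ∈ A.image f)) :=
          isSumFree_preimage f s _ _ (by intro a ha; simpa using ha) hsf
        have h5 := card_le_mu h4
        rwa [card_preimage f hf k hk, ← hAc] at h5
      have h3' : A.card ≤ (A.image f).card * k := by
        obtain ⟨x, hx⟩ := hne.image f
        have h4 := card_le_of_fibre f hf k hk A x hx
        have h5 : (A.filter (fun g => f g = x)).card ≤ k := by
          calc (A.filter (fun g => f g = x)).card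
              ≤ (Finset.univ.filter (fun g => f g = x)).card :=
                Finset.card_le_card (Finset.filter_subset_filter _ (Finset.subset_univ _))
            _ = k := card_fib f hf k hk x
        have h6 : ((A.image f).card - 1) * k + k = (A.image f).card * k := by
          have : (A.image f).card = ((A.image f).card - 1) + 1 := by omega
          conv_rhs => rw [this]
          ring
        omega
      have h4 : (A.image f).card = mu H s := by
        apply le_antisymm (card_le_mu hsf)
        have h5 := mu_mul_le f hf k hk s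
        rw [← hAc] at h5
        exact Nat.le_of_mul_le_mul_right (h5.trans h3') (by omega)
      have hlt : Fintype.card H < n := by
        rw [← hn, ← hk]; nlinarith
      have hTH : Fintype.card H < T s * mu H s := by
        rw [← h4]
        have h5 : Fintype.card H * k < (T s * (A.image f).card) * k := by
          calc Fintype.card H * k = Fintype.card G := by rw [mul_comm, hk]
            _ < T s * A.card := hT
            _ ≤ T s * ((A.image f).card * k) := Nat.mul_le_mul_left _ h3'
            _ = _ := by ring
        exact Nat.lt_of_mul_lt_mul_right h5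
      obtain ⟨d, c, hd, hadm, hle⟩ := IH _ hlt H rfl hTH
      refine ⟨d, c, hd.trans (exponent_dvd_of_surj f hf), hadm, ?_⟩
      calc A.card * d ≤ ((A.image f).card * k) * d := Nat.mul_le_mul_right _ h3'
        _ = (mu H s * d) * k := by rw [h4]; ring
        _ ≤ (c * Fintype.card H) * k := Nat.mul_le_mul_right _ hle
        _ = c * Fintype.card G := by rw [← hk]; ring
    · -- the exceptional coset
      rw [isSumFree_iff] at hsf
      push Not at hsf
      obtain ⟨U, V, hU, hV, hUs, hVs, hne', he⟩ := hsf
      obtain ⟨x, hx, hUx, hVx⟩ := hrig U V hU hV hUs hVs hne' he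
      have hUe : U = Multiset.replicate (Multiset.card U) x :=
        Multiset.eq_replicate.2 ⟨rfl, hUx⟩
      have hVe : V = Multiset.replicate (Multiset.card V) x :=
        Multiset.eq_replicate.2 ⟨rfl, hVx⟩
      have he' : Multiset.card U • x = Multiset.card V • x := by
        rw [hUe, hVe, Multiset.sum_replicate, Multiset.sum_replicate] at he
        exact he
      obtain ⟨e, he1, hes, hex0⟩ : ∃ e : ℕ, 1 ≤ e ∧ e ≤ s ∧ e • x = 0 := by
        rcases Nat.lt_or_gt_of_ne hne' with hlt | hlt
        · refine ⟨Multiset.card V - Multiset.card U, by omega, by omega, ?_⟩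
          have h3 : Multiset.card V = (Multiset.card V - Multiset.card U) + Multiset.card U := by
            omega
          rw [h3, add_nsmul] at he'
          exact left_eq_add.1 (by rw [add_comm] at he'; exact he')
        · refine ⟨Multiset.card U - Multiset.card V, by omega, by omega, ?_⟩
          have h3 : Multiset.card U = (Multiset.card U - Multiset.card V) + Multiset.card V := by
            omega
          rw [h3, add_nsmul] at he'
          exact add_eq_right.1 he'
      obtain ⟨hes', hord⟩ := hRIG H s _ hrig hc2 x hx e he1 hes hex0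
      subst hes'
      obtain ⟨hfill, huniq⟩ := hFILL G H f hf k _ hk A hs hA hnear x hx hex0
      have hAle := card_le_of_fibre f hf k hk A x hx
      by_cases hap : IsAP (A.image f)
      · have hgc := hGC H _ (A.image f) hs hrig x hx hord huniq hc2 hap
        rcases hFIN G H f hf k _ hk A hs hA x hx hord hc2 hfill hgc with h3 | ⟨h3, h4⟩
        · omega
        · exact ⟨2 * e, 1, h3, adm1_one _ _ (by omega), by omega⟩
      rcases hTRA H (A.image f) hc2 with hap' | ⟨M, hM, hMn⟩ | hgrow
      · exact absurd hap' hap
      · obtain ⟨N', hN', hNH⟩ := nearHom_comp f hf k hk (by omega) A hnear M hM hMn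
        exact absurd hNH (hmin' N' (by omega))
      · have hc3 : 3 ≤ (A.image f).card := by
          by_contra hcon
          exact hap (isAP_of_card _ (by omega) (by omega))
        have hgb := hGB H _ (A.image f) hs hrig x hx hord huniq hc3 hgrow
        exfalso
        have h5 : 2 * A.card ≤ (2 * (A.image f).card - 1) * k := by
          obtain ⟨c, hc⟩ : ∃ c, (A.image f).card = c + 1 := ⟨(A.image f).card - 1, by omega⟩
          rw [hc] at hAle ⊢
          have e1 : c + 1 - 1 = c := by omega
          have e2 : 2 * (c + 1) - 1 = 2 * c + 1 := by omega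
          rw [e1] at hAle
          rw [e2]
          nlinarith
        have h6 : 2 * (T e * A.card) ≤ 2 * Fintype.card G := by
          calc 2 * (T e * A.card) = T e * (2 * A.card) := by ring
            _ ≤ T e * ((2 * (A.image f).card - 1) * k) := Nat.mul_le_mul_left _ h5
            _ = (T e * (2 * (A.image f).card - 1)) * k := by ring
            _ ≤ (2 * Fintype.card H) * k := Nat.mul_le_mul_right _ hgb
            _ = 2 * Fintype.card G := by rw [← hk]; ring
        omega
  · rcases hTRA G A (by omega) with hap | ⟨M, hM, hMn⟩ | hgrow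
    · exact absurd hap hAP
    · exfalso
      apply hex
      have hid : (A.image (AddMonoidHom.id G)) = A := by simp
      obtain ⟨N', -, h3⟩ := nearHom_comp (AddMonoidHom.id G) Function.surjective_id 1 (by simp)
        le_rfl A (by rw [hid]; omega) M hM (by rw [hid]; exact hMn)
      exact ⟨N', h3⟩
    · rcases hGA G s A hs hA (by omega) hgrow with h3 | ⟨m, hm1, hm2, hm3⟩
      · omega
      · exact ⟨m, 1, hm2, adm1_one _ _ hm1, by omega⟩

end Pool.Agent.Helper18.SV
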