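import Pool.Agent.Helper95.SF.Reduce
import Pool.Agent.Helper18.SV.Final

/-!
# Project SV: the statements of the earlier hand-ins of helper95 (`ExactValues`, `PGroups`)
-/

open Finset
open scoped Pointwise

namespace Pool.Agent.Helper18.SV

open Pool.Agent.Helper95.SF

/-- the statement of `ExactValues` (helper95) -/
theorem exactValues {G : Type*} [AddCommGroup G] [DecidableEq G] [Fintype G] (s m : ℕ) (hs : 2 ≤ s)
    (hm : IsLeast {d : ℕ | d ∣ AddMonoid.exponent G ∧ s < d} m) :
    Fintype.card G / m ≤ mu G s ∧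
    (mu G s ≤ Fintype.card G / m ∨ D s * mu G s ≤ 2 * Fintype.card G) ∧
    (2 * m ≤ D s → mu G s = Fintype.card G / m) ∧
    (Even s → D s ∣ AddMonoid.exponent G → D s ≤ 2 * m →
      mu G s = 2 * (Fintype.card G / D s)) := by
  classical
  obtain ⟨⟨hmκ, hsm⟩, hmin⟩ := hm
  have hm' : ∀ e : ℕ, e ∣ AddMonoid.exponent G → s < e → m ≤ e := fun e h1 h2 => hmin ⟨h1, h2⟩
  have hκn : AddMonoid.exponent G ∣ Fintype.card G := AddGroup.exponent_dvd_card
  have hgr := mu_isGreatest (G := G) s
  obtain ⟨A, hA, hAc⟩ := hgr.1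
  have hup : mu G s * m ≤ Fintype.card G ∨ D s * mu G s ≤ 2 * Fintype.card G := by
    rw [← hAc]
    exact upper_half s m hs hm' A hA
  have hlowm : Fintype.card G / m ≤ mu G s := by
    have h := card_div_mul (G := G) s m 1 hmκ
      ((one_le_mu_zmod s m (by omega) hsm).trans' (Nat.le_add_left 1 _))
    rwa [Nat.mul_one] at h
  have hexact : mu G s * m ≤ Fintype.card G → mu G s ≤ Fintype.card G / m := fun h =>
    (Nat.le_div_iff_mul_le (by omega)).2 h
  refine ⟨hlowm, hup.imp_left hexact, ?_, ?_⟩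
  · intro h2m
    refine le_antisymm (hexact ?_) hlowm
    rcases hup with h | h
    · exact h
    · have : 2 * m * mu G s ≤ D s * mu G s := Nat.mul_le_mul_right _ h2m
      have e : 2 * m * mu G s = 2 * (mu G s * m) := by ring
      omega
  · rintro ⟨t, ht⟩ hDκ hD2m
    obtain rfl : s = 2 * t := by omega
    have hDt : D (2 * t) = 3 * t ^ 2 + 3 * t + 1 := by
      unfold D
      have : 3 * (2 * t + 1) ^ 2 + 3 = 4 * (3 * t ^ 2 + 3 * t + 1) + 2 := by ring
      rw [this]; omega
    have hmu2 : 2 ≤ mu (ZMod (D (2 * t))) (2 * t) := by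
      rw [hDt]
      have : NeZero (3 * t ^ 2 + 3 * t + 1) := ⟨by omega⟩
      obtain ⟨B, hB, hBc⟩ := interval_hex t (by omega)
      exact hBc.symm.le.trans (card_le_mu hB)
    have h5 := card_div_mul (2 * t) (D (2 * t)) 2 hDκ hmu2
    rw [mul_comm] at h5
    apply le_antisymm _ h5
    have h6 : Fintype.card G / D (2 * t) * D (2 * t) = Fintype.card G :=
      Nat.div_mul_cancel (hDκ.trans hκn)
    have h7 : D (2 * t) * mu G (2 * t) ≤ 2 * Fintype.card G := by
      rcases hup with h | h
      · calc D (2 * t) * mu G (2 * t) ≤ 2 * m * mu G (2 * t) := Nat.mul_le_mul_right _ hD2m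
          _ = 2 * (mu G (2 * t) * m) := by ring
          _ ≤ 2 * Fintype.card G := by omega
      · exact h
    have h8 : D (2 * t) * mu G (2 * t) ≤ D (2 * t) * (2 * (Fintype.card G / D (2 * t))) := by
      calc D (2 * t) * mu G (2 * t) ≤ 2 * Fintype.card G := h7
        _ = 2 * (Fintype.card G / D (2 * t) * D (2 * t)) := by rw [h6]
        _ = _ := by ring
    exact Nat.le_of_mul_le_mul_left h8 (by omega)

/-- the statement of `PGroups` (helper95) -/
theorem pGroups {G : Type*} [AddCommGroup G] [DecidableEq G] [Fintype G] (s m p k : ℕ)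
    (hs : 2 ≤ s) (hp : p.Prime) (hcard : Fintype.card G = p ^ k)
    (hm : IsLeast {d : ℕ | d ∣ AddMonoid.exponent G ∧ s < d} m) :
    (m ≤ mu (ZMod m) s * T s → mu G s = Fintype.card G / m * mu (ZMod m) s) ∧
    (m ≤ T s → mu G s = Fintype.card G / m) := by
  have hsm : s < m := hm.1.2
  have hb : 1 ≤ mu (ZMod m) s :=
    (one_le_mu_zmod s m (by omega) hsm).trans' (Nat.le_add_left 1 _)
  refine ⟨?_, ?_⟩
  · intro hE
    exact pgroup s m _ p k hs hp hcard hm le_rfl hb hE
  · intro hE
    have h := pgroup s m 1 p k hs hp hcard hm hb le_rfl (by unfold T at hE; omega)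
    rwa [Nat.mul_one] at h

end Pool.Agent.Helper18.SV
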